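import Pool.Agent.U602.SQ.AutoSq

set_option autoImplicit false
set_option linter.unusedSectionVars false

/-! Automatic sets: many members with record gaps around the member and its square. -/

namespace Pool.Agent.U602.SQ

open Finset Filter Topology
open Pool.Agent.H469R2.NK (e norm_e e_add e_zero)
open Pool.Agent.W147.PS (ff ff_compare ev_pow)
open Pool.Agent.U602.AU

section

variable {Q : Type} [Fintype Q] {b : ℕ} {δ : ℕ → Q → Q}

open scoped Classical in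
/-- record gaps around many numbers leading to a recurrent state -/
theorem main_auto_sq (hb : 2 ≤ b) (s₀ : ℕ → Q) (hs₀ : ∀ n d, d < b → s₀ (b * n + d) = δ d (s₀ n))
    (D : ℕ) (hD : D = b * (Fintype.card Q).factorial)
    (F : Set Q) (n₁ : ℕ) (hn₁ : 1 ≤ n₁) (hF : s₀ n₁ ∈ F) (hn1D : (n₁ : ZMod D) = 1)
    (hrec : Recu b (δP D b δ) (s₀ n₁, (n₁ : ZMod D)))
    (ε : ℝ) (hε : 0 < ε) (hε1 : ε ≤ 1) :
    ∃ κ : ℝ, 0 < κ ∧ ∀ᶠ X : ℝ in atTop, X ^ (1 - ε) ≤
      (((range (⌊X⌋₊ + 1)).filter (fun n => s₀ n ∈ F ∧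
        ∀ q : ℕ, q.Prime → κ * ff X < |(q : ℝ) - n| ∧ κ * ff X < |(q : ℝ) - (n : ℝ) ^ 2|)).card : ℝ) := by
  have hb0 : 0 < b := by omega
  have hD0 : 0 < D := by rw [hD]; exact Nat.mul_pos hb0 (Nat.factorial_pos _)
  have : NeZero D := ⟨hD0.ne'⟩
  set s : ℕ → Q × ZMod D := fun n => (s₀ n, (n : ZMod D)) with hsd
  have hs : ∀ n d, d < b → s (b * n + d) = δP D b δ d (s n) := by
    intro n d hd
    rw [hsd]
    simp only [δP]
    rw [hs₀ n d hd]
    push_cast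
    rfl
  obtain ⟨t, ht1, S, hyS, hclosed, hall⟩ := exists_class hb0 (s n₁) hrec
  have hS : ∀ x ∈ S, ∀ m, T b (δP D b δ) t m x ∈ S := fun x hx m => hclosed x hx _ ⟨m, rfl⟩
  set b' : ℕ := b ^ t with hb'
  have hb'2 : 2 ≤ b' := by
    rw [hb']
    calc 2 ≤ b := hb
      _ = b ^ 1 := (pow_one b).symm
      _ ≤ b ^ t := Nat.pow_le_pow_right hb0 ht1
  have hb'0 : 0 < b' := by omega
  have hb'R : (2 : ℝ) ≤ b' := by exact_mod_cast hb'2
  set δ' : ℕ → S → S := fun d x => ⟨T b (δP D b δ) t d x, hS x x.2 d⟩ with hδ'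
  have hfull : ∀ x z : S, ∃ d < b', δ' d x = z := by
    intro x z
    obtain ⟨m, hm, hmz⟩ := Rc_lt hb0 (hall x x.2 z z.2)
    exact ⟨m, hm, Subtype.ext hmz⟩
  have hTb : ∀ (L m : ℕ) (x : S), ((T b' δ' L m x : S) : Q × ZMod D) = T b (δP D b δ) (t * L) m x :=
    fun L m x => T_block hb0 t S hS L m x
  have : Fintype S := Fintype.ofFinite S
  set y : S := ⟨s n₁, hyS⟩ with hy
  -- reading blocks
  have hsy : ∀ (n k w : ℕ), s n = s n₁ → w < b' ^ k → T b' δ' k w y = y →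
      s (b' ^ k * n + w) = s n₁ := by
    intro n k w hn hw hT
    have h1 := congrArg Subtype.val hT
    rw [hTb] at h1
    have h2 : b' ^ k = b ^ (t * k) := by rw [hb', pow_mul]
    rw [h2] at hw ⊢
    rw [s_T hb0 s hs _ _ _ hw, hn]
    exact h1
  obtain ⟨κ, hκ, hloc⟩ := loc_sq hb D hD t ht1 S hS hall (ε / 4) (by positivity)
  rw [← hb'] at hloc
  refine ⟨κ / 64, by positivity, ?_⟩
  have hshrink : Tendsto (fun X : ℝ => X / (2 * b')) atTop atTop :=
    tendsto_id.atTop_div_const (by positivity)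
  filter_upwards [hshrink.eventually hloc, hshrink.eventually_ge_atTop 1,
    eventually_ge_atTop (1 : ℝ), ff_compare (1 / 2) (by norm_num) (by norm_num),
    ev_pow (1 / 2) 1 (2 * b') (by norm_num),
    ev_pow (ε / 4) (ε / 2) ((b' : ℝ) ^ 2) (by linarith),
    ev_pow (ε / 2) 1 ((n₁ : ℝ) + 1) (by linarith),
    ev_pow (1 - ε) (1 - ε / 2) (((n₁ : ℝ) + 1) * (b' : ℝ) ^ 2) (by linarith)]
    with X hX hM1 hX1 hff h1 h2 h3 h4
  have hX0 : 0 < X := by linarith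
  set M : ℝ := X / (2 * b') with hM
  rw [Real.rpow_one] at h1 h3
  have hMX : M ≤ X := by
    rw [hM]
    exact div_le_self hX0.le (by linarith)
  -- the lengths
  have hbb : (1 : ℝ) < (b' : ℝ) ^ 2 := by nlinarith
  have hXε : 1 ≤ X ^ (ε / 2) := Real.one_le_rpow hX1 (by positivity)
  obtain ⟨L, hL1, hL2⟩ := exists_nat_pow_near hXε hbb
  have hLL : ((b' : ℝ) ^ 2) ^ L = (b' : ℝ) ^ (L + L) := by rw [← pow_mul]; congr 1; ring
  rw [pow_succ, hLL] at hL2
  rw [hLL] at hL1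
  set BL : ℝ := (b' : ℝ) ^ (L + L) with hBL
  have hBL0 : 0 < BL := by positivity
  have hn₁R : (1 : ℝ) ≤ n₁ := by exact_mod_cast hn₁
  have hx1 : 1 ≤ X / (((n₁ : ℝ) + 1) * BL) := by
    rw [le_div_iff₀ (by positivity), one_mul]
    calc ((n₁ : ℝ) + 1) * BL ≤ ((n₁ : ℝ) + 1) * X ^ (ε / 2) := by gcongr
      _ ≤ X := h3
  obtain ⟨K, hK1, hK2⟩ := exists_nat_pow_near hx1 (show (1 : ℝ) < b' by linarith)
  rw [le_div_iff₀ (by positivity)] at hK1
  rw [div_lt_iff₀ (by positivity)] at hK2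
  -- conditions
  have hc1 : M ^ (ε / 4) ≤ BL := by
    have e1 : M ^ (ε / 4) ≤ X ^ (ε / 4) := Real.rpow_le_rpow (by linarith) hMX (by positivity)
    have e2 : (b' : ℝ) ^ 2 * X ^ (ε / 4) < BL * (b' : ℝ) ^ 2 := lt_of_le_of_lt h2 hL2
    have e3 : X ^ (ε / 4) < BL := by
      rw [mul_comm] at e2
      exact lt_of_mul_lt_mul_right e2 (by positivity)
    linarith
  have hc2 : ∀ w : ℕ, M ≤ ((b' ^ K * n₁ + w : ℕ) : ℝ) * BL := by
    intro w
    have e1 : (b' : ℝ) ^ K * n₁ * BL ≤ ((b' ^ K * n₁ + w : ℕ) : ℝ) * BL := by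
      apply mul_le_mul_of_nonneg_right _ hBL0.le
      push_cast
      have : (0 : ℝ) ≤ w := Nat.cast_nonneg w
      linarith
    refine le_trans ?_ e1
    rw [hM, div_le_iff₀ (by positivity)]
    have e2 : (b' : ℝ) ^ (K + 1) * (((n₁ : ℝ) + 1) * BL) ≤
        (b' : ℝ) ^ (K + 1) * ((2 * n₁) * BL) := by
      gcongr
      linarith
    calc X ≤ (b' : ℝ) ^ (K + 1) * (((n₁ : ℝ) + 1) * BL) := hK2.le
      _ ≤ _ := e2
      _ = _ := by rw [pow_succ]; ring
  -- the points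
  set G : Finset ℕ := (range (b' ^ K)).filter (fun w => T b' δ' K w y = y) with hG
  have hGcard : (b' : ℝ) ^ K / b' ≤ G.card := by
    rcases Nat.eq_zero_or_pos K with hK | hK
    · have e1 : (1 : ℝ) ≤ G.card := by
        have : 0 < G.card := by
          rw [card_pos]
          refine ⟨0, ?_⟩
          rw [hG, mem_filter, mem_range, hK]
          exact ⟨by simp, rfl⟩
        exact_mod_cast this
      rw [hK, pow_zero]
      refine le_trans ?_ e1
      rw [div_le_one (by linarith)]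
      linarith
    · obtain ⟨K', rfl⟩ : ∃ K', K = K' + 1 := ⟨K - 1, by omega⟩
      have e1 := card_ge hfull K' y y
      have e2 : (b' : ℝ) ^ (K' + 1) / b' = (b' : ℝ) ^ K' := by
        rw [pow_succ, mul_div_cancel_right₀ _ (by linarith)]
      rw [e2]
      have e3 : b' ^ K' ≤ G.card := by
        rw [hG]
        convert e1
      exact_mod_cast e3
  have hpt : ∀ w ∈ G, ∃ m < b' ^ (L + L), T b' δ' (L + L) m y = y ∧
      ∀ q : ℕ, q.Prime →
        κ * ff M < |(q : ℝ) - ((b' ^ (L + L) * (b' ^ K * n₁ + w) + m : ℕ) : ℝ)| ∧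
        κ * ff M < |(q : ℝ) - ((b' ^ (L + L) * (b' ^ K * n₁ + w) + m : ℕ) : ℝ) ^ 2| := by
    intro w hw
    rw [hG, mem_filter, mem_range] at hw
    have e1 := congrArg Prod.snd (hsy n₁ K w rfl hw.1 hw.2)
    exact hX L (b' ^ K * n₁ + w) hc1 (hc2 w) y y e1 hn1D
  choose! g hg1 hg2 hg3 using hpt
  have hffM : 1 / 64 * ff X ≤ ff M := by
    have e1 := (hff.2 M (by
      rw [hM, le_div_iff₀ (by positivity), mul_comm]
      exact h1) (hMX.trans (by nlinarith))).1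
    linarith
  have hcardle : G.card ≤ ((range (⌊X⌋₊ + 1)).filter (fun n => s₀ n ∈ F ∧
        ∀ q : ℕ, q.Prime → κ / 64 * ff X < |(q : ℝ) - n| ∧
          κ / 64 * ff X < |(q : ℝ) - (n : ℝ) ^ 2|)).card := by
    apply card_le_card_of_injOn (fun w => b' ^ (L + L) * (b' ^ K * n₁ + w) + g w)
    · intro w hw
      have hwG : w ∈ G := hw
      have hw' : w < b' ^ K ∧ T b' δ' K w y = y := by
        rw [hG, mem_filter, mem_range] at hwG
        exact hwG
      simp only [coe_filter, mem_range, Set.mem_ofPred_eq]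
      have e1 : s (b' ^ K * n₁ + w) = s n₁ := hsy n₁ K w rfl hw'.1 hw'.2
      have e2 : s (b' ^ (L + L) * (b' ^ K * n₁ + w) + g w) = s n₁ :=
        hsy _ (L + L) _ e1 (hg1 w hwG) (hg2 w hwG)
      refine ⟨?_, ?_, ?_⟩
      · apply Nat.lt_succ_of_le
        apply Nat.le_floor
        have e3 : b' ^ (L + L) * (b' ^ K * n₁ + w) + g w ≤ b' ^ (L + L) * (b' ^ K * (n₁ + 1)) := by
          have e4 := hg1 w hwG
          calc b' ^ (L + L) * (b' ^ K * n₁ + w) + g w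
              ≤ b' ^ (L + L) * (b' ^ K * n₁ + w) + b' ^ (L + L) := by omega
            _ = b' ^ (L + L) * (b' ^ K * n₁ + (w + 1)) := by ring
            _ ≤ b' ^ (L + L) * (b' ^ K * n₁ + b' ^ K) :=
                Nat.mul_le_mul_left _ (by have := hw'.1; omega)
            _ = _ := by ring
        have e4 : ((b' ^ (L + L) * (b' ^ K * n₁ + w) + g w : ℕ) : ℝ) ≤
            ((b' ^ (L + L) * (b' ^ K * (n₁ + 1)) : ℕ) : ℝ) := by exact_mod_cast e3
        refine e4.trans ?_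
        push_cast
        calc (b' : ℝ) ^ (L + L) * ((b' : ℝ) ^ K * ((n₁ : ℝ) + 1)) =
              (b' : ℝ) ^ K * (((n₁ : ℝ) + 1) * BL) := by rw [hBL]; ring
          _ ≤ X := hK1
      · have e5 := congrArg Prod.fst e2
        have e6 : s₀ (b' ^ (L + L) * (b' ^ K * n₁ + w) + g w) = s₀ n₁ := e5
        rw [e6]
        exact hF
      · intro q hq
        obtain ⟨e3, e3'⟩ := hg3 w hwG q hq
        have e7 : κ / 64 * ff X ≤ κ * ff M := by
          calc κ / 64 * ff X = κ * (1 / 64 * ff X) := by ring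
            _ ≤ κ * ff M := mul_le_mul_of_nonneg_left hffM hκ.le
        exact ⟨lt_of_le_of_lt e7 e3, lt_of_le_of_lt e7 e3'⟩
    · intro w hw w' hw' hww
      have hwG : w ∈ G := hw
      have hwG' : w' ∈ G := hw'
      simp only at hww
      have hbL : 0 < b' ^ (L + L) := by positivity
      have e1 : (b' ^ (L + L) * (b' ^ K * n₁ + w) + g w) / b' ^ (L + L) =
          (b' ^ (L + L) * (b' ^ K * n₁ + w') + g w') / b' ^ (L + L) := by rw [hww]
      rw [Nat.mul_add_div hbL, Nat.mul_add_div hbL, Nat.div_eq_of_lt (hg1 w hwG),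
        Nat.div_eq_of_lt (hg1 w' hwG')] at e1
      omega
  have hfin : X ^ (1 - ε) ≤ (b' : ℝ) ^ K / b' := by
    rw [le_div_iff₀ (by linarith)]
    have e1 : ((n₁ : ℝ) + 1) * (b' : ℝ) ^ 2 * X ^ (1 - ε) * X ^ (ε / 2) ≤ X := by
      calc _ ≤ X ^ (1 - ε / 2) * X ^ (ε / 2) := by gcongr
        _ = X := by
          rw [← Real.rpow_add hX0]
          have : 1 - ε / 2 + ε / 2 = 1 := by ring
          rw [this, Real.rpow_one]
    have e2 : ((n₁ : ℝ) + 1) * (b' : ℝ) ^ 2 * X ^ (1 - ε) * BL ≤ X := by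
      refine le_trans ?_ e1
      gcongr
    have e3 : (((n₁ : ℝ) + 1) * BL * b') * (X ^ (1 - ε) * b') <
        (((n₁ : ℝ) + 1) * BL * b') * (b' : ℝ) ^ K := by
      calc (((n₁ : ℝ) + 1) * BL * b') * (X ^ (1 - ε) * b') =
            ((n₁ : ℝ) + 1) * (b' : ℝ) ^ 2 * X ^ (1 - ε) * BL := by ring
        _ ≤ X := e2
        _ < (b' : ℝ) ^ (K + 1) * (((n₁ : ℝ) + 1) * BL) := hK2
        _ = _ := by rw [pow_succ]; ring
    exact (lt_of_mul_lt_mul_left e3 (by positivity)).le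
  calc X ^ (1 - ε) ≤ (b' : ℝ) ^ K / b' := hfin
    _ ≤ G.card := hGcard
    _ ≤ _ := by exact_mod_cast hcardle

end

open scoped Classical in
/-- record gaps around the members of an automatic set and their squares -/
theorem main_kernel_sq (b : ℕ) (hb : 2 ≤ b) (A : Set ℕ)
    (hA : {B : Set ℕ | ∃ k r : ℕ, r < b ^ k ∧ B = {n : ℕ | b ^ k * n + r ∈ A}}.Finite)
    (hd : ∀ D : ℕ, 1 ≤ D → ∃ c : ℝ, 0 < c ∧ ∀ H : ℕ, ∃ u v : ℕ, u + H ≤ v ∧
      c * ((v : ℝ) - u) ≤ ((Ioc u v).filter (fun n => n ∈ A ∧ (D : ℤ) ∣ n - 1)).card)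
    (ε : ℝ) (hε : 0 < ε) :
    ∃ κ : ℝ, 0 < κ ∧ ∀ᶠ X : ℝ in atTop, X ^ (1 - ε) ≤
      (((range (⌊X⌋₊ + 1)).filter (fun n => n ∈ A ∧
        ∀ q : ℕ, q.Prime → κ * ff X < |(q : ℝ) - n| ∧ κ * ff X < |(q : ℝ) - (n : ℝ) ^ 2|)).card : ℝ) := by
  set 𝒦 : Set (Set ℕ) := {B : Set ℕ | ∃ k r : ℕ, r < b ^ k ∧ B = {n : ℕ | b ^ k * n + r ∈ A}} with h𝒦
  have : Finite 𝒦 := hA
  have : Fintype 𝒦 := Fintype.ofFinite _
  have hA𝒦 : A ∈ 𝒦 := ⟨0, 0, by simp, by simp⟩
  have hstep : ∀ B ∈ 𝒦, ∀ d < b, {n : ℕ | b * n + d ∈ B} ∈ 𝒦 := by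
    rintro B ⟨k, r, hr, rfl⟩ d hd
    refine ⟨k + 1, b ^ k * d + r, ?_, ?_⟩
    · calc b ^ k * d + r < b ^ k * d + b ^ k := by omega
        _ = b ^ k * (d + 1) := by ring
        _ ≤ b ^ k * b := Nat.mul_le_mul_left _ hd
        _ = b ^ (k + 1) := (pow_succ _ _).symm
    · ext n
      simp only [Set.mem_ofPred_eq]
      have : b ^ k * (b * n + d) + r = b ^ (k + 1) * n + (b ^ k * d + r) := by
        rw [pow_succ]; ring
      rw [this]
  let δ : ℕ → (𝒦 → Prop) → (𝒦 → Prop) := fun d x B =>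
    if h : d < b then x ⟨{n : ℕ | b * n + d ∈ (B : Set ℕ)}, hstep B B.2 d h⟩ else False
  let s : ℕ → (𝒦 → Prop) := fun n B => n ∈ (B : Set ℕ)
  have hs : ∀ n d, d < b → s (b * n + d) = δ d (s n) := by
    intro n d hd
    funext B
    simp only [s, δ, dif_pos hd, Set.mem_ofPred_eq]
  let F : Set (𝒦 → Prop) := {x | x ⟨A, hA𝒦⟩}
  have hF : ∀ n, s n ∈ F ↔ n ∈ A := fun n => Iff.rfl
  have : Fintype (𝒦 → Prop) := Fintype.ofFinite _
  obtain ⟨D, hD⟩ : ∃ D, D = b * (Fintype.card (𝒦 → Prop)).factorial := ⟨_, rfl⟩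
  have hD0 : 0 < D := by rw [hD]; exact Nat.mul_pos (by omega) (Nat.factorial_pos _)
  have : NeZero D := ⟨hD0.ne'⟩
  obtain ⟨c, hc, hd'⟩ := hd D hD0
  obtain ⟨n₁, hn1, hnF, hrec⟩ := exists_recu_mem (Q := (𝒦 → Prop) × ZMod D) (δ := δP D b δ) hb
    (fun n => (s n, (n : ZMod D))) (by
      intro n d hd
      simp only [δP]
      rw [hs n d hd]
      push_cast
      rfl) {x | x.1 ∈ F ∧ x.2 = 1} c hc (by
      intro H
      obtain ⟨u, v, huv, h⟩ := hd' H
      refine ⟨u, v, huv, h.trans (le_of_eq ?_)⟩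
      congr 2
      ext n
      simp only [mem_filter]
      apply and_congr_right
      intro _
      have e1 : (D : ℤ) ∣ (n : ℤ) - 1 ↔ (n : ZMod D) = 1 := by
        rw [← ZMod.intCast_zmod_eq_zero_iff_dvd]
        push_cast
        rw [sub_eq_zero]
      rw [e1]
      rfl)
  obtain ⟨κ, hκ, h⟩ := main_auto_sq hb s hs D hD F n₁ hn1 hnF.1 hnF.2 hrec (min ε 1) (by positivity)
    (min_le_right _ _)
  refine ⟨κ, hκ, ?_⟩
  filter_upwards [h, eventually_ge_atTop (1 : ℝ)] with X hX hX1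
  refine le_trans ?_ hX
  apply Real.rpow_le_rpow_of_exponent_le hX1
  have := min_le_left ε 1
  linarith

end Pool.Agent.U602.SQ
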