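import Pool.Agent.U602.SQ.MainD
import Pool.Agent.U602.AU.Main
import Pool.Agent.U602.AU.Bound2

set_option autoImplicit false
set_option linter.unusedSectionVars false

/-! Automatic sets: record gaps around a member and its square. -/

namespace Pool.Agent.U602.SQ

open Finset Filter Topology
open Pool.Agent.H469R2.NK (e norm_e e_add e_zero)
open Pool.Agent.W147.PS (ff ff_compare ev_pow)
open Pool.Agent.TH915.PW (class_le)
open Pool.Agent.U602.AU

/-- the criterion from exponential sums over the rationals `h / q`, `q` prime to `D` -/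
theorem crit_int_sqD (D : ℕ) (hD : 0 < D) (η : ℝ) (h0 : 0 < η) (h1 : η ≤ 1 / 2) :
    ∃ κ : ℝ, 0 < κ ∧ ∀ᶠ M : ℝ in atTop,
    ∀ 𝒮 : Finset ℤ, 𝒮.Nonempty → (∀ a ∈ 𝒮, M ≤ (a : ℝ)) → (∀ a ∈ 𝒮, (D : ℤ) ∣ a - 1) →
    (∀ q h : ℕ, (q : ℝ) ≤ M ^ η → q.Coprime D → 1 ≤ h → h < q →
      ‖∑ a ∈ 𝒮, e ((h : ℝ) / q * a)‖ ≤ 𝒮.card * M ^ (-η)) →
    ∃ a ∈ 𝒮, ∀ q : ℕ, q.Prime → κ * ff M < |(q : ℝ) - a| ∧ κ * ff M < |(q : ℝ) - (a : ℝ) ^ 2| := by
  classical
  obtain ⟨c, hc, Y₀, hcr⟩ := crit_sqD D hD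
  refine ⟨c * (η / 32), by positivity, ?_⟩
  filter_upwards [ff_compare η h0 (by linarith), (tendsto_rpow_atTop h0).eventually_ge_atTop Y₀,
    eventually_ge_atTop (1 : ℝ), ev_pow (1 / 2) 1 4 (by norm_num)] with M hM hMY hM1 hM4
  intro 𝒮 h𝒮 ha hD1 hE
  have hM0 : 0 < M := by linarith
  rw [Real.rpow_one] at hM4
  have hY0 : 0 < M ^ η := Real.rpow_pos_of_pos hM0 _
  have hYM : M ^ η ≤ M ^ (1 / 2 : ℝ) := Real.rpow_le_rpow_of_exponent_le hM1 h1
  have hh0 : 0 < M ^ (1 / 2 : ℝ) := Real.rpow_pos_of_pos hM0 _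
  obtain ⟨m, hm, hm2⟩ := hcr (M ^ η) hMY 𝒮 h𝒮 (fun a h => by
      have := ha a h
      linarith) hD1 (by
    intro q hq1 hq2 hqD r
    have h2 := class_le 𝒮 (fun a => a) q hq1 (𝒮.card * M ^ (-η)) (by positivity)
      (fun h hh1 hh2 => hE q h hq2 hqD hh1 hh2) r
    refine h2.trans (le_of_eq ?_)
    rw [Real.rpow_neg hM0.le]
    rfl)
  refine ⟨m, hm, fun q hq => ?_⟩
  have h3 := (hM.2 (M ^ η) le_rfl (by
    calc M ^ η ≤ M ^ (2 : ℝ) := Real.rpow_le_rpow_of_exponent_le hM1 (by linarith)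
      _ = M ^ 2 := by norm_cast)).1
  have h4 : c * (η / 32) * ff M ≤ c * Pool.Agent.H426R3.SQ.ff (M ^ η) := by
    have h5 : Pool.Agent.H426R3.SQ.ff (M ^ η) = ff (M ^ η) := rfl
    rw [h5]
    calc c * (η / 32) * ff M = c * (η / 32 * ff M) := by ring
      _ ≤ _ := mul_le_mul_of_nonneg_left h3 hc.le
  obtain ⟨h6, h7⟩ := hm2 q hq
  exact ⟨lt_of_le_of_lt h4 h6, lt_of_le_of_lt h4 h7⟩

/-- the automaton which also keeps the residue modulo `D` -/
def δP {Q : Type} (D b : ℕ) (δ : ℕ → Q → Q) : ℕ → Q × ZMod D → Q × ZMod D :=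
  fun d x => (δ d x.1, (b : ZMod D) * x.2 + d)

section

variable {Q : Type} {b : ℕ} {δ : ℕ → Q → Q}

lemma T_fst (D k : ℕ) : ∀ (m : ℕ) (x : Q × ZMod D),
    (T b (δP D b δ) k m x).1 = T b δ k m x.1 := by
  induction k with
  | zero => intro m x; rfl
  | succ k ih =>
    intro m x
    rw [T_succ, T_succ, δP]
    simp only
    rw [ih]

lemma T_snd (hb : 0 < b) (D k : ℕ) : ∀ (m : ℕ) (x : Q × ZMod D), m < b ^ k →
    (T b (δP D b δ) k m x).2 = (b : ZMod D) ^ k * x.2 + m := by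
  induction k with
  | zero =>
    intro m x hm
    have : m = 0 := by simpa using hm
    subst this
    simp [T_zero]
  | succ k ih =>
    intro m x hm
    have h2 : m / b < b ^ k := by
      rw [Nat.div_lt_iff_lt_mul hb]
      rwa [pow_succ] at hm
    rw [T_succ, δP]
    simp only
    rw [ih _ _ h2]
    have h3 : (m : ZMod D) = (b : ZMod D) * ((m / b : ℕ) : ZMod D) + ((m % b : ℕ) : ZMod D) := by
      have := Nat.div_add_mod m b
      conv_lhs => rw [← this]
      push_cast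
      ring
    rw [h3, pow_succ]
    ring

end

lemma sum_ind (D : ℕ) (hD : 0 < D) (k : ℤ) :
    ∑ j ∈ range D, e (k * ((j : ℝ) / D)) = if (D : ℤ) ∣ k then (D : ℂ) else 0 := by
  have hDc : (D : ℝ) ≠ 0 := by exact_mod_cast hD.ne'
  split_ifs with hm
  · obtain ⟨t, rfl⟩ := hm
    have : ∀ h ∈ range D, e (((D : ℤ) * t : ℤ) * ((h : ℝ) / D)) = 1 := by
      intro h _
      have e1 : (((D : ℤ) * t : ℤ) : ℝ) * ((h : ℝ) / D) = ((t * h : ℤ) : ℝ) := by
        push_cast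
        field_simp
      rw [e1]
      exact Pool.Agent.TH915.PW.e_int _
    rw [sum_congr rfl this]
    simp
  · exact Pool.Agent.TH915.PW.sum_char D hD k hm

section

variable {Q : Type} [Fintype Q] {b : ℕ} {δ : ℕ → Q → Q}

open scoped Classical in
theorem loc_sq (hb : 2 ≤ b) (D : ℕ) (hD : D = b * (Fintype.card Q).factorial)
    (t : ℕ) (ht : 1 ≤ t) (S : Set (Q × ZMod D))
    (hclosed : ∀ x ∈ S, ∀ m, T b (δP D b δ) t m x ∈ S)
    (hall : ∀ x ∈ S, ∀ z ∈ S, Rc b (δP D b δ) t x z) (ε : ℝ) (hε : 0 < ε) :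
    ∃ κ : ℝ, 0 < κ ∧ ∀ᶠ M : ℝ in atTop, ∀ L n : ℕ, M ^ ε ≤ ((b ^ t : ℕ) : ℝ) ^ (L + L) →
      M ≤ n * ((b ^ t : ℕ) : ℝ) ^ (L + L) → ∀ x y : S, (n : ZMod D) = (x : Q × ZMod D).2 →
      (y : Q × ZMod D).2 = 1 → ∃ m < (b ^ t) ^ (L + L),
        T (b ^ t) (fun d (x : S) => (⟨T b (δP D b δ) t d x, hclosed x x.2 d⟩ : S)) (L + L) m x = y ∧
        ∀ q : ℕ, q.Prime → κ * ff M < |(q : ℝ) - (((b ^ t) ^ (L + L) * n + m : ℕ) : ℝ)| ∧
          κ * ff M < |(q : ℝ) - (((b ^ t) ^ (L + L) * n + m : ℕ) : ℝ) ^ 2| := by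
  have hb0 : 0 < b := by omega
  obtain ⟨b', hb'⟩ : ∃ b', b' = b ^ t := ⟨_, rfl⟩
  rw [← hb']
  have hb'2 : 2 ≤ b' := by
    rw [hb']
    calc 2 ≤ b := hb
      _ = b ^ 1 := (pow_one b).symm
      _ ≤ b ^ t := Nat.pow_le_pow_right hb0 ht
  have hb'R : (2 : ℝ) ≤ b' := by exact_mod_cast hb'2
  have hD0 : 0 < D := by rw [hD]; exact Nat.mul_pos hb0 (Nat.factorial_pos _)
  have hDR : (0 : ℝ) < D := by exact_mod_cast hD0
  -- the projection of the class
  set SQ : Set Q := Prod.fst '' S with hSQ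
  have hSQc : ∀ x ∈ SQ, ∀ m, T b δ t m x ∈ SQ := by
    rintro _ ⟨x, hx, rfl⟩ m
    exact ⟨_, hclosed x hx m, T_fst D t m x⟩
  have hS1 : ∀ x : S, (x : Q × ZMod D).1 ∈ SQ := fun x => ⟨x, x.2, rfl⟩
  set δ₁ : ℕ → SQ → SQ := fun d x => ⟨T b δ t d x, hSQc x x.2 d⟩ with hδ₁
  set δ₂ : ℕ → S → S := fun d x => ⟨T b (δP D b δ) t d x, hclosed x x.2 d⟩ with hδ₂
  have hfull₁ : ∀ x z : SQ, ∃ d < b', δ₁ d x = z := by
    rintro ⟨_, x, hx, rfl⟩ ⟨_, z, hz, rfl⟩
    obtain ⟨m, hm, hmz⟩ := Rc_lt hb0 (hall x hx z hz)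
    refine ⟨m, by rw [hb']; exact hm, Subtype.ext ?_⟩
    rw [hδ₁]
    simp only
    rw [← T_fst D, hmz]
  have hfull₂ : ∀ x z : S, ∃ d < b', δ₂ d x = z := by
    intro x z
    obtain ⟨m, hm, hmz⟩ := Rc_lt hb0 (hall x x.2 z z.2)
    exact ⟨m, by rw [hb']; exact hm, Subtype.ext hmz⟩
  have hTb₁ : ∀ (L m : ℕ) (x : SQ), ((T b' δ₁ L m x : SQ) : Q) = T b δ (t * L) m x := by
    intro L m x
    rw [hb']
    exact T_block hb0 t SQ hSQc L m x
  have hTb₂ : ∀ (L m : ℕ) (x : S), ((T b' δ₂ L m x : S) : Q × ZMod D) =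
      T b (δP D b δ) (t * L) m x := by
    intro L m x
    rw [hb']
    exact T_block hb0 t S hclosed L m x
  have : Fintype SQ := Fintype.ofFinite SQ
  have hcardSQ : Fintype.card SQ ≤ Fintype.card Q :=
    Fintype.card_le_of_injective (Subtype.val : SQ → Q) Subtype.val_injective
  have : NeZero D := ⟨hD0.ne'⟩
  have : Fintype S := Fintype.ofFinite S
  obtain ⟨C, a, hC, ha0, ha1, hW⟩ := auto_gen (δ := δ₁) hb'2 hfull₁
  have hlb : 0 < Real.log b' := Real.log_pos (by linarith)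
  have hla : Real.log a < 0 := Real.log_neg ha0 ha1
  set α : ℝ := -Real.log a / Real.log b' with hα
  have hα0 : 0 < α := div_pos (by linarith) hlb
  have hab : ∀ L : ℕ, a ^ L = ((b' : ℝ) ^ (L + L)) ^ (-(α / 2)) := by
    intro L
    rw [← Real.rpow_natCast a, ← Real.rpow_natCast (b' : ℝ), ← Real.rpow_mul (by linarith),
      Real.rpow_def_of_pos ha0, Real.rpow_def_of_pos (by linarith)]
    congr 1
    rw [hα]
    push_cast
    field_simp
    ring
  have hbL2 : ∀ L : ℕ, (b' : ℝ) ^ L = (b' : ℝ) ^ (L + L) * ((b' : ℝ) ^ (L + L)) ^ (-(1 / 2) : ℝ) := by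
    intro L
    rw [← Real.rpow_natCast (b' : ℝ) (L + L), ← Real.rpow_natCast (b' : ℝ) L,
      ← Real.rpow_mul (by linarith), ← Real.rpow_add (by linarith)]
    congr 1
    push_cast
    ring
  set η : ℝ := min (1 / 2) (min (ε * α / 8) (ε / 8)) with hη
  have hη0 : 0 < η := by rw [hη]; positivity
  have hη1 : η ≤ 1 / 2 := min_le_left _ _
  have hη2 : η ≤ ε * α / 8 := (min_le_right _ _).trans (min_le_left _ _)
  have hη3 : η ≤ ε / 8 := (min_le_right _ _).trans (min_le_right _ _)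
  obtain ⟨κ, hκ, hcrit⟩ := crit_int_sqD D hD0 η hη0 hη1
  refine ⟨κ, hκ, ?_⟩
  filter_upwards [hcrit, eventually_ge_atTop (1 : ℝ),
    ev_pow (-(ε * α / 2)) (-η) (2 * C * b') (by nlinarith [mul_pos hε hα0]),
    ev_pow (η - ε / 2) (-η) (2 * C * b' * D) (by linarith),
    (tendsto_rpow_atTop hε).eventually_ge_atTop 2] with M hM hM1 hMa hMb hM2
  intro L n hL hn x y hnx hy1
  have hM0 : 0 < M := by linarith
  set B : ℝ := (b' : ℝ) ^ (L + L) with hB
  have hB0 : 0 < B := by positivity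
  have hL1 : 1 ≤ L := by
    by_contra hlt
    have : L = 0 := by omega
    rw [hB, this] at hL
    norm_num at hL
    linarith
  obtain ⟨K, hK⟩ : ∃ K, L + L = K + 1 := ⟨L + L - 1, by omega⟩
  set s : Finset ℕ := (range (b' ^ (L + L))).filter (fun m => T b' δ₂ (L + L) m x = y) with hs
  have hcard : b' ^ K ≤ s.card := by
    rw [hs, hK]
    convert card_ge hfull₂ K x y
  have hcardR : B / b' ≤ s.card := by
    have h1 : B / b' = (b' : ℝ) ^ K := by
      rw [hB, hK, pow_succ, mul_div_cancel_right₀ _ (by linarith)]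
    rw [h1]
    exact_mod_cast hcard
  have hsne : s.Nonempty := by
    rw [← card_pos]
    have : 0 < b' ^ K := by positivity
    omega
  set N : ℕ := b' ^ (L + L) * n with hN
  set x₁ : SQ := ⟨(x : Q × ZMod D).1, hS1 x⟩ with hx₁
  set y₁ : SQ := ⟨(y : Q × ZMod D).1, hS1 y⟩ with hy₁
  have hmem : ∀ m < b' ^ (L + L), (T b' δ₂ (L + L) m x = y ↔
      T b' δ₁ (L + L) m x₁ = y₁ ∧ (D : ℤ) ∣ ((N + m : ℕ) : ℤ) - 1) := by
    intro m hm
    have hm' : m < b ^ (t * (L + L)) := by rw [pow_mul, ← hb']; exact hm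
    have e1 : T b' δ₂ (L + L) m x = y ↔ T b (δP D b δ) (t * (L + L)) m x = y := by
      rw [← hTb₂]
      exact Subtype.ext_iff
    have e2 : T b' δ₁ (L + L) m x₁ = y₁ ↔ T b δ (t * (L + L)) m (x : Q × ZMod D).1 =
        (y : Q × ZMod D).1 := by
      rw [Subtype.ext_iff, hTb₁]
    have e3 : (D : ℤ) ∣ ((N + m : ℕ) : ℤ) - 1 ↔
        (b : ZMod D) ^ (t * (L + L)) * (x : Q × ZMod D).2 + m = (y : Q × ZMod D).2 := by
      rw [← ZMod.intCast_zmod_eq_zero_iff_dvd, hy1, ← hnx, hN, hb']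
      push_cast
      rw [sub_eq_zero, ← pow_mul]
    rw [e1, e2, e3, Prod.ext_iff, T_fst, T_snd hb0 D _ _ _ hm']
  have hinj : Function.Injective (fun m : ℕ => ((N + m : ℕ) : ℤ)) := fun a b h => by
    simpa using h
  obtain ⟨a', ha', hgap⟩ := hM (s.image (fun m => ((N + m : ℕ) : ℤ))) (hsne.image _) (by
    intro a' ha'
    obtain ⟨m, _, rfl⟩ := mem_image.1 ha'
    rw [hN]
    push_cast
    have : (0 : ℝ) ≤ m := Nat.cast_nonneg m
    have e1 : (b' : ℝ) ^ (L + L) * n = n * B := by rw [hB]; ring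
    linarith) (by
    intro a' ha'
    obtain ⟨m, hm, rfl⟩ := mem_image.1 ha'
    rw [hs, mem_filter, mem_range] at hm
    exact ((hmem m hm.1).1 hm.2).2) (by
    intro q h hq hqD hh1 hh2
    rw [card_image_of_injective _ hinj, sum_image (fun a _ b _ h => hinj h)]
    have hqpos : 0 < q := by omega
    have hq0 : (0 : ℝ) < q := by exact_mod_cast hqpos
    set φ : SQ → ℂ := fun z => if z = y₁ then 1 else 0 with hφ
    have hφn : ‖φ‖ ≤ 1 := by
      rw [pi_norm_le_iff_of_nonneg zero_le_one]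
      intro z
      rw [hφ]
      simp only
      split_ifs <;> simp
    have e1 : (D : ℂ) * ∑ m ∈ s, e ((h : ℝ) / q * (((N + m : ℕ) : ℤ) : ℝ)) =
        ∑ j ∈ range D, e ((h : ℝ) / q * N + ((N : ℝ) - 1) * ((j : ℝ) / D)) *
          W b' δ₁ (L + L) ((h : ℝ) / q + (j : ℝ) / D) φ x₁ := by
      have f1 : ∑ m ∈ s, e ((h : ℝ) / q * (((N + m : ℕ) : ℤ) : ℝ)) =
          ∑ m ∈ range (b' ^ (L + L)), (if T b' δ₁ (L + L) m x₁ = y₁ then
            (if (D : ℤ) ∣ ((N + m : ℕ) : ℤ) - 1 then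
              e ((h : ℝ) / q * (((N + m : ℕ) : ℤ) : ℝ)) else 0) else 0) := by
        rw [hs, sum_filter]
        refine sum_congr rfl fun m hm => ?_
        rw [if_congr (hmem m (mem_range.1 hm)) rfl rfl, ite_and]
      rw [f1, mul_sum]
      simp_rw [W_apply, mul_sum]
      rw [sum_comm]
      refine sum_congr rfl fun m _ => ?_
      rw [hφ]
      simp only
      split_ifs with g1 g2
      · have g3 := sum_ind D hD0 (((N + m : ℕ) : ℤ) - 1)
        rw [if_pos g2] at g3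
        rw [← g3, sum_mul]
        refine sum_congr rfl fun j _ => ?_
        rw [mul_one, ← e_add, ← e_add]
        congr 1
        push_cast
        ring
      · have g3 := sum_ind D hD0 (((N + m : ℕ) : ℤ) - 1)
        rw [if_neg g2] at g3
        have g4 : ∑ j ∈ range D, e ((h : ℝ) / q * N + ((N : ℝ) - 1) * ((j : ℝ) / D)) *
            (e (m * ((h : ℝ) / q + (j : ℝ) / D)) * 1) =
            e ((h : ℝ) / q * (N + m)) * ∑ j ∈ range D,
              e ((((N + m : ℕ) : ℤ) - 1 : ℤ) * ((j : ℝ) / D)) := by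
          rw [mul_sum]
          refine sum_congr rfl fun j _ => ?_
          rw [mul_one, ← e_add, ← e_add]
          congr 1
          push_cast
          ring
        rw [g4, g3]
        simp
      · simp
    have e2 : a ^ L ≤ M ^ (-(ε * α / 2)) := by
      rw [hab L]
      have h1 : -(ε * α / 2) = ε * (-(α / 2)) := by ring
      rw [h1, Real.rpow_mul hM0.le]
      exact Real.rpow_le_rpow_of_nonpos (by positivity) hL (by linarith)
    have e3 : q * (b' : ℝ) ^ L ≤ B * M ^ (η - ε / 2) := by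
      rw [hbL2 L]
      have h1 : η - ε / 2 = η + ε * (-(1 / 2)) := by ring
      rw [h1, Real.rpow_add hM0, Real.rpow_mul hM0.le]
      have h2 : B ^ (-(1 / 2) : ℝ) ≤ (M ^ ε) ^ (-(1 / 2) : ℝ) :=
        Real.rpow_le_rpow_of_nonpos (by positivity) hL (by norm_num)
      calc (q : ℝ) * (B * B ^ (-(1 / 2) : ℝ)) = B * (q * B ^ (-(1 / 2) : ℝ)) := by ring
        _ ≤ B * (M ^ η * (M ^ ε) ^ (-(1 / 2) : ℝ)) := by gcongr
    have e4 : ∀ j ∈ range D, ‖e ((h : ℝ) / q * N + ((N : ℝ) - 1) * ((j : ℝ) / D)) *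
          W b' δ₁ (L + L) ((h : ℝ) / q + (j : ℝ) / D) φ x₁‖ ≤ B / b' * M ^ (-η) := by
      intro j hj
      rw [norm_mul, norm_e, one_mul]
      refine (norm_le_pi_norm _ x₁).trans ?_
      have hρ : (0 : ℝ) < 1 / (q * D) := by positivity
      refine (hW L L ((h : ℝ) / q + (j : ℝ) / D) (1 / (q * D)) φ hρ ?_).trans ?_
      · intro q₀ hq₀1 hq₀2 k
        have f1 : (q₀ : ℝ) * ((b' : ℝ) ^ L * ((h : ℝ) / q + (j : ℝ) / D)) - k =
            ((q₀ * b' ^ L * (h * D + j * q) - k * q * D : ℤ) : ℝ) / (q * D) := by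
          push_cast
          field_simp
        have f2 : (q₀ * b' ^ L * (h * D + j * q) - k * q * D : ℤ) ≠ 0 := by
          intro f3
          have f4 : (q : ℤ) ∣ (q₀ * b' ^ L * (h * D) : ℤ) :=
            ⟨k * D - q₀ * b' ^ L * j, by linear_combination f3⟩
          have f5 : q ∣ q₀ * b' ^ L * (h * D) := by exact_mod_cast f4
          have f6 : q.Coprime q₀ := by
            apply Nat.Coprime.coprime_dvd_right _ hqD
            rw [hD]
            exact Dvd.dvd.mul_left (Nat.dvd_factorial (by omega) (hq₀2.trans hcardSQ)) _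
          have f7 : q.Coprime (b' ^ L) := by
            apply Nat.Coprime.pow_right
            rw [hb']
            apply Nat.Coprime.pow_right
            apply Nat.Coprime.coprime_dvd_right _ hqD
            rw [hD]
            exact Dvd.intro _ rfl
          have f8 : q ∣ h * D := (Nat.Coprime.mul_right f6 f7).dvd_of_dvd_mul_left f5
          have f9 : q ∣ h := hqD.dvd_of_dvd_mul_right f8
          have := Nat.le_of_dvd (by omega) f9
          omega
        rw [f1, abs_div, abs_of_pos (show (0 : ℝ) < q * D by positivity)]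
        apply div_le_div_of_nonneg_right _ (by positivity)
        exact_mod_cast Int.one_le_abs f2
      · have e5 : C * (a ^ L * B + (b' : ℝ) ^ L / (1 / (q * D))) * ‖φ‖ ≤
            C * (M ^ (-(ε * α / 2)) * B + D * (B * M ^ (η - ε / 2))) * 1 := by
          have e6 : (b' : ℝ) ^ L / (1 / (q * D)) = D * (q * (b' : ℝ) ^ L) := by
            field_simp
          rw [e6]
          gcongr
        refine e5.trans ?_
        calc C * (M ^ (-(ε * α / 2)) * B + D * (B * M ^ (η - ε / 2))) * 1 =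
            B / b' * (2 * C * b' * M ^ (-(ε * α / 2)) + 2 * C * b' * D * M ^ (η - ε / 2)) / 2 := by
              field_simp
          _ ≤ B / b' * (M ^ (-η) + M ^ (-η)) / 2 := by gcongr
          _ = B / b' * M ^ (-η) := by ring
    have e7 : ‖(D : ℂ) * ∑ m ∈ s, e ((h : ℝ) / q * (((N + m : ℕ) : ℤ) : ℝ))‖ ≤
        D * (B / b' * M ^ (-η)) := by
      rw [e1]
      refine (norm_sum_le _ _).trans ((sum_le_card_nsmul _ _ _ e4).trans ?_)
      rw [card_range, nsmul_eq_mul]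
    rw [norm_mul, Complex.norm_natCast] at e7
    refine (le_of_mul_le_mul_left e7 hDR).trans ?_
    gcongr)
  obtain ⟨m, hm, rfl⟩ := mem_image.1 ha'
  rw [hs, mem_filter, mem_range] at hm
  refine ⟨m, hm.1, hm.2, ?_⟩
  intro q hq
  have := hgap q hq
  push_cast at this ⊢
  exact this

end

end Pool.Agent.U602.SQ
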