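import Pool.Agent.H426R3.SQ.Cov

set_option autoImplicit false
set_option linter.unusedSectionVars false
set_option linter.unusedVariables false

/-! # The covering theorem with colour dependent densities, with a relative error

Adapted from `Pool/Agent/H426R3/SQ/Cov.lean` (helper551, helper426, helper474, helper256): the error
of the counts is relative to the main term, and the main term is arbitrary. -/

namespace Pool.Agent.U602.SQ

open Finset Filter Pool.Agent.H256R2.SC Pool.Agent.H426R3.SQ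
open Pool.Agent.H474R2.PG (Asum_enum' colh colh_eq TT TT_mem TT_prod sT sT_eq event_iff' scales')

open scoped Classical

theorem fin_rel (u L : ℝ) (n J : ℕ) (z Q Err N : ℝ) (hu0 : 0 ≤ u) (hn1 : (n:ℝ) + 1 ≤ z)
    (hzJ : z ^ J ≤ Real.exp (23 * L / 1000)) (hQ : Q = Real.exp (L / 40))
    (huL : u ≤ Real.exp (L / 100)) (f5 : 1000 ≤ L) (hErr0 : 0 ≤ Err) (hN : 0 < N)
    (hErr : Err ≤ N * Real.exp (-(2 / 5) * L)) :
    Err * (9 * Q ^ 4 * (1 + u * ((n:ℝ) + 1) ^ J)) < N / 8 := by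
  have h1 := V1x.fin u L n J z Q (Err * (Real.exp (1 / 2 * L) / N)) (Real.exp (1 / 2 * L)) hu0 hn1 hzJ
    hQ huL f5 (by positivity) (by
      have e1 : Real.exp (1 / 10 * L) = Real.exp (-(2 / 5) * L) * Real.exp (1 / 2 * L) := by
        rw [← Real.exp_add]; congr 1; ring
      rw [e1, mul_div_assoc', div_le_iff₀ hN]
      have := mul_le_mul_of_nonneg_right hErr (Real.exp_pos (1 / 2 * L)).le
      linarith) le_rfl
  have hE := Real.exp_pos (1 / 2 * L)
  have h2 : Err * (Real.exp (1 / 2 * L) / N) * (9 * Q ^ 4 * (1 + u * ((n:ℝ) + 1) ^ J)) =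
      Err * (9 * Q ^ 4 * (1 + u * ((n:ℝ) + 1) ^ J)) * Real.exp (1 / 2 * L) / N := by ring
  rw [h2, div_lt_iff₀ hN] at h1
  have h3 : Real.exp (1 / 2 * L) / 8 * N = N / 8 * Real.exp (1 / 2 * L) := by ring
  rw [h3] at h1
  exact lt_of_mul_lt_mul_right h1 hE.le

theorem covering_rel (c₂ : ℝ) (hc₂ : 0 < c₂) : ∃ c : ℝ, 0 < c ∧ ∃ X₀ : ℝ, ∀ X : ℝ, X₀ ≤ X →
    ∀ (B : Finset ℕ) (κ : Type) [Fintype κ] [DecidableEq κ] [Nonempty κ],
    (Fintype.card κ : ℝ) ≤ c * Real.log X →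
    ∀ (hit : ℕ → ℤ → κ → Prop) (g : ℕ → κ → ℝ),
    (∀ p k, 0 ≤ g p k ∧ g p k ≤ 2 / (p : ℝ)) →
    (∀ p : ℕ, p.Prime → (Real.log X) ^ 3 < p → ∀ a k l, hit p a k → hit p a l → k = l) →
    (∀ k, ∀ z x : ℝ, (Real.log X) ^ 3 ≤ x → x ≤ z → z ≤ Real.exp ((Real.log X) ^ (1 / 20 : ℝ)) →
      c₂ * Real.log x / Real.log (Real.log X) - 1 ≤
        ∑ s ∈ ((SP ((Real.log X) ^ 3) z B).powerset.filter
            (fun s : Finset ℕ => s.Nonempty ∧ ∏ p ∈ s, (p : ℝ) ≤ x)), ∏ p ∈ s, g p k) →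
    ∀ (𝒜 : Finset ℤ) (N Err : ℝ), 0 < N → 0 ≤ Err → Err ≤ N * X ^ (-(2 / 5) : ℝ) →
    (∀ (T : Finset ℕ) (s : ℕ → κ), (∏ p ∈ T, (p : ℝ)) ≤ X ^ (1 / 4 : ℝ) →
      (∀ p ∈ T, p.Prime ∧ (Real.log X) ^ 3 < p ∧ p ∉ B) →
      |((𝒜.filter (fun a => ∀ p ∈ T, hit p a (s p))).card : ℝ) - N * ∏ p ∈ T, g p (s p)| ≤ Err) →
    ∃ a ∈ 𝒜, ∀ k : κ, ∃ p : ℕ, p.Prime ∧ (Real.log X) ^ 3 < p ∧
      (p : ℝ) ≤ Real.exp ((Real.log X) ^ (1 / 20 : ℝ)) ∧ p ∉ B ∧ hit p a k := by
  obtain ⟨CM₀, hM₀⟩ := Pool.Agent.Helper256.KM.mertens_inv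
  set CM : ℝ := max CM₀ 0 with hCM
  have hCM0 : 0 ≤ CM := le_max_right _ _
  set C₀ : ℝ := 3 + 2 / c₂ with hC₀
  have hC₀0 : 0 < C₀ := by positivity
  have hC₀3 : 3 ≤ C₀ := by
    have : 0 < 2 / c₂ := by positivity
    linarith
  have hC₀c : 2 ≤ c₂ * C₀ := by
    have h4 : c₂ * C₀ = 3 * c₂ + 2 := by
      rw [hC₀]
      field_simp
    linarith
  set c : ℝ := min (1 / 8) (c₂ / 20480) with hc
  have hc0 : 0 < c := lt_min (by norm_num) (by positivity)
  have hc8 : c ≤ 1 / 8 := min_le_left _ _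
  have hcc : c ≤ c₂ / 20480 := min_le_right _ _
  obtain ⟨L₀, hL₀⟩ := V1x.ev C₀ CM
  refine ⟨c, hc0, Real.exp L₀, ?_⟩
  intro X hX B κ _ _ _ hκ hit g hg hres hRL 𝒜 N Err hN hErr0 hErr hcount
  have hX0 : 0 < X := lt_of_lt_of_le (Real.exp_pos _) hX
  set L : ℝ := Real.log X with hL
  have hXL : X = Real.exp L := (Real.exp_log hX0).symm
  have hLL : L₀ ≤ L := by
    rw [hL, ← Real.log_exp L₀]
    exact Real.log_le_log (Real.exp_pos _) hX
  obtain ⟨f1, f2, f3, f4, f5, f6, f7⟩ := hL₀ L hLL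
  set l : ℝ := Real.log L with hl
  have hl0 : 0 < l := by linarith
  have hLpos : 0 < L := by linarith
  have hLexp : L = Real.exp l := (Real.exp_log hLpos).symm
  have hXr : ∀ s : ℝ, X ^ s = Real.exp (s * L) := by
    intro s
    rw [hXL, ← Real.exp_mul, mul_comm]
  set Z : ℝ := L ^ (1 / 20 : ℝ) with hZ
  have hZ0 : 0 < Z := Real.rpow_pos_of_pos hLpos _
  have hlogZ : Real.log Z = l / 20 := by
    rw [hZ, Real.log_rpow hLpos]
    ring
  set y₁ : ℝ := L ^ 3 with hy₁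
  have hy1L : L ^ 2 ≤ y₁ := by
    rw [hy₁]; exact pow_le_pow_right₀ (by linarith) (by norm_num)
  have hy1L1 : L ≤ y₁ := by nlinarith
  have hy1 : 3 ≤ y₁ := by linarith
  have hlogy : Real.log y₁ = 3 * l := by
    rw [hy₁, Real.log_pow, ← hl]
    norm_num
  -- the scales
  set T : ℝ := C₀ * l with hT
  have hT0 : 0 < T := by positivity
  have hLs : 1 < L ^ (1 / 16 : ℝ) := Real.one_lt_rpow (by linarith) (by norm_num)
  obtain ⟨m, hm1, hm2, hm3⟩ := scales' T Z (L ^ (1 / 16 : ℝ)) hT0 hLs (by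
    rw [← Real.rpow_mul hLpos.le]
    calc L ^ (1 / 16 * (7 / 10) : ℝ) * T ≤ L ^ (1 / 16 * (7 / 10) : ℝ) * L ^ (1 / 160 : ℝ) :=
          mul_le_mul_of_nonneg_left f3 (Real.rpow_nonneg hLpos.le _)
      _ = Z := by
          rw [← Real.rpow_add hLpos, hZ]
          norm_num)
  have hm3' : l / 16 ≤ m + 1 := by
    rw [Real.log_rpow hLpos] at hm3
    linarith
  set z₀ : ℝ := Real.exp T with hz₀
  set z : ℝ := z₀ ^ (2 ^ m) with hz
  have hlogz0 : Real.log z₀ = T := Real.log_exp _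
  have hz01 : 1 < z₀ := by rw [hz₀]; exact Real.one_lt_exp_iff.mpr hT0
  have hlogzj : ∀ j : ℕ, Real.log (z₀ ^ (2 ^ j)) = (2:ℝ) ^ j * T := by
    intro j
    rw [Real.log_pow, hlogz0]
    push_cast
    ring
  have hlogz : Real.log z = (2:ℝ) ^ m * T := hlogzj m
  have hzpos : 0 < z := by rw [hz]; positivity
  have hlz1 : Real.log z ≤ Z := by rw [hlogz]; exact hm1
  have hlzpos : 0 < Real.log z := by
    rw [hlogz]
    positivity
  have hzexp : z = Real.exp (Real.log z) := (Real.exp_log hzpos).symm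
  have hzZ : z ≤ Real.exp Z := by
    rw [hzexp]
    exact Real.exp_le_exp.mpr hlz1
  have hZL : Z ≤ L / 120000 := by
    have : 12000 * 10 * Z ≤ 12000 * l * Z := by
      apply mul_le_mul_of_nonneg_right _ hZ0.le
      linarith
    linarith
  -- the sieving primes
  set PP : Finset ℕ := SP y₁ z B with hPP
  have hPPmem : ∀ p ∈ PP, p.Prime ∧ y₁ < (p:ℝ) ∧ p ∉ B ∧ (p:ℝ) ≤ z := by
    intro p hp
    rw [hPP] at hp
    unfold SP at hp
    rw [Finset.mem_filter, Finset.mem_Icc] at hp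
    refine ⟨hp.2.1, hp.2.2.1, hp.2.2.2, ?_⟩
    calc (p:ℝ) ≤ (⌊z⌋₊ : ℝ) := by exact_mod_cast hp.1.2
      _ ≤ z := Nat.floor_le hzpos.le
  have huniq : ∀ p ∈ PP, ∀ a k l, hit p a k → hit p a l → k = l := by
    intro p hp
    obtain ⟨h1, h2, h3, h4⟩ := hPPmem p hp
    exact hres p h1 h2
  set n : ℕ := PP.card with hn
  set P : Fin n → ℝ := fun i => ((emb PP i : ℕ) : ℝ) with hP
  set G : Fin n → κ → ℝ := fun i k => g (emb PP i) k with hG
  set gm : Fin n → ℝ := fun i => 2 * (1 / P i) with hgm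
  have hPy : ∀ i, y₁ < P i := fun i => (hPPmem _ (emb_mem PP i)).2.1
  have hPz : ∀ i, P i ≤ z := fun i => (hPPmem _ (emb_mem PP i)).2.2.2
  have hP1 : ∀ i, 1 < P i := fun i => by linarith [hPy i]
  have hP0 : ∀ i, 0 < P i := fun i => by linarith [hPy i]
  have hG0 : ∀ i k, 0 ≤ G i k := fun i k => (hg _ _).1
  have hGm : ∀ i k, G i k ≤ gm i := fun i k => by
    have h1 := (hg (emb PP i) k).2
    have h2 : gm i = 2 / ((emb PP i : ℕ) : ℝ) := by
      rw [hgm, hP]
      ring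
    rw [h2]
    exact h1
  have hgm0 : ∀ i, 0 ≤ gm i := fun i => by
    have := hP0 i
    rw [hgm]
    positivity
  have hPy' : ∀ i, 1 / P i ≤ 1 / y₁ := fun i =>
    one_div_le_one_div_of_le (by linarith) (hPy i).le
  have hgmy : ∀ i, gm i ≤ 2 / L ^ 3 := fun i => by
    have h1 := hPy' i
    have h2 : gm i = 2 * (1 / P i) := rfl
    have h3 : 2 / L ^ 3 = 2 * (1 / y₁) := by
      rw [hy₁]
      ring
    rw [h2, h3]
    linarith
  have hgmL : ∀ i, gm i ≤ 1 / L ^ 2 := fun i => by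
    refine (hgmy i).trans ?_
    rw [div_le_div_iff₀ (by positivity) (by positivity)]
    have : L ^ 3 = L ^ 2 * L := by ring
    rw [this]
    nlinarith [sq_nonneg L]
  have hLinv : 1 / L ^ 2 ≤ 1 / 1000000 := by
    rw [div_le_div_iff₀ (by positivity) (by norm_num)]
    nlinarith
  -- the profiles
  set lam : ℝ := c₂ / (2 * l) with hlam
  have hlam0 : 0 < lam := by positivity
  have hyz0 : 3 * l ≤ T := by
    rw [hT]
    exact mul_le_mul_of_nonneg_right hC₀3 hl0.le
  have hAs : ∀ k : κ, ∀ j < m + 1, 1 ≤ Asum P (fun i => G i k) (z₀ ^ (2 ^ j)) ∧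
      lam * (2 ^ j * Real.log z₀) ≤ Asum P (fun i => G i k) (z₀ ^ (2 ^ j)) := by
    intro k j hj
    have h1 : Asum P (fun i => G i k) (z₀ ^ (2 ^ j)) = _ :=
      Asum_enum' PP (fun p => g p k) (z₀ ^ (2 ^ j))
    have hxl := hlogzj j
    have h2j : (1:ℝ) ≤ 2 ^ j := one_le_pow₀ (by norm_num)
    have hyx : y₁ ≤ z₀ ^ (2 ^ j) := by
      rw [← Real.log_le_log_iff (by linarith) (by positivity), hxl, hlogy]
      exact hyz0.trans (le_mul_of_one_le_left hT0.le h2j)
    have hxz : z₀ ^ (2 ^ j) ≤ z := by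
      rw [hz]
      exact pow_le_pow_right₀ hz01.le (Nat.pow_le_pow_right (by norm_num) (by omega))
    have h2 := hRL k z (z₀ ^ (2 ^ j)) hyx hxz hzZ
    have h3 : c₂ * Real.log (z₀ ^ (2 ^ j)) / l = c₂ * C₀ * 2 ^ j := by
      rw [hxl, hT]
      field_simp
    rw [h3] at h2
    have h5 : c₂ * C₀ * 2 ^ j - 1 ≤ Asum P (fun i => G i k) (z₀ ^ (2 ^ j)) := by
      rw [h1]
      exact h2
    have h6 : 2 ≤ c₂ * C₀ * 2 ^ j := hC₀c.trans (le_mul_of_one_le_right (by positivity) h2j)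
    refine ⟨by linarith, ?_⟩
    have h7 : lam * (2 ^ j * Real.log z₀) = c₂ * C₀ * 2 ^ j / 2 := by
      rw [hlam, hlogz0, hT]
      field_simp
    rw [h7]
    linarith
  choose h hh using fun k : κ => exists_h0 P (fun i => G i k) hP1 (fun i => hG0 i k) (m + 1)
    (by omega) z₀ lam hz01 hlam0 (hAs k)
  have hzz : z₀ ^ (2 ^ (m + 1 - 1)) = z := by rw [hz, Nat.add_sub_cancel]
  set K : ℝ := 4 / (lam * ((m + 1 : ℕ) : ℝ)) with hK
  have hK0 : 0 ≤ K := by positivity
  have H : Hypc P G h z K := by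
    refine ⟨hP1, hG0, ?_, hK0, fun k => (hh k).1, fun k => (hh k).2.1, fun k => (hh k).2.2.1,
      ?_, fun k => (hh k).2.2.2.2.1, fun k => (hh k).2.2.2.2.2⟩
    · rw [← hzz]
      exact one_lt_pow₀ hz01 (by positivity)
    · intro k s hs
      have := (hh k).2.2.2.1 s hs
      rwa [hzz] at this
  have hK8 : K ≤ 128 / c₂ := by
    rw [hK]
    have h1 : lam * (l / 16) ≤ lam * ((m + 1 : ℕ) : ℝ) := by
      push_cast
      exact mul_le_mul_of_nonneg_left hm3' hlam0.le
    have h2 : 0 < lam * (l / 16) := by positivity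
    calc 4 / (lam * ((m + 1 : ℕ) : ℝ)) ≤ 4 / (lam * (l / 16)) :=
          div_le_div_of_nonneg_left (by norm_num) h2 h1
      _ = 128 / c₂ := by
          rw [hlam]
          field_simp
          norm_num
  set u : ℝ := (Fintype.card κ : ℝ) with hu
  have hu0 : 0 ≤ u := Nat.cast_nonneg _
  have huL8 : u ≤ L / 8 := by
    refine hκ.trans ?_
    have : c * L ≤ 1 / 8 * L := mul_le_mul_of_nonneg_right hc8 hLpos.le
    linarith
  -- the sum of the reciprocals
  have hG1 : ∑ i, 1 / P i ≤ l / 20 + CM := by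
    have h1 : ∑ i, 1 / P i = ∑ p ∈ PP, 1 / (p:ℝ) := by
      have : PP = univ.map (emb PP) := by
        ext p
        rw [Finset.mem_map]
        constructor
        · intro hp
          obtain ⟨i, hi⟩ := emb_surj PP hp
          exact ⟨i, Finset.mem_univ _, hi⟩
        · rintro ⟨i, _, rfl⟩
          exact emb_mem PP i
      conv_rhs => rw [this]
      rw [Finset.sum_map]
    have hz3 : 3 ≤ ⌊z⌋₊ := by
      apply Nat.le_floor
      push_cast
      have e5 : y₁ ≤ z := by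
        rw [← Real.log_le_log_iff (by linarith) hzpos, hlogy, hlogz]
        have : (1:ℝ) ≤ 2 ^ m := one_le_pow₀ (by norm_num)
        exact hyz0.trans (le_mul_of_one_le_left hT0.le this)
      linarith
    have h2 := (abs_le.mp (hM₀ ⌊z⌋₊ hz3)).2
    have h3 : ∑ p ∈ PP, 1 / (p:ℝ) ≤ ∑ p ∈ (Finset.Icc 1 ⌊z⌋₊).filter Nat.Prime, (1 : ℝ) / p := by
      apply Finset.sum_le_sum_of_subset_of_nonneg
      · intro p hp
        rw [hPP] at hp
        unfold SP at hp
        rw [Finset.mem_filter] at hp ⊢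
        exact ⟨hp.1, hp.2.1⟩
      · intro p _ _
        positivity
    have h4 : Real.log (Real.log (⌊z⌋₊ : ℝ)) ≤ l / 20 := by
      have e1 : (3:ℝ) ≤ (⌊z⌋₊ : ℝ) := by exact_mod_cast hz3
      have e2 : Real.log (⌊z⌋₊ : ℝ) ≤ Z := by
        have : Real.log (⌊z⌋₊ : ℝ) ≤ Real.log z :=
          Real.log_le_log (by linarith) (Nat.floor_le hzpos.le)
        linarith
      rw [← hlogZ]
      exact Real.log_le_log (Real.log_pos (by linarith)) e2
    rw [h1]
    have := le_max_left CM₀ 0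
    linarith
  have hGs : ∑ i, gm i ≤ l / 10 + 2 * CM := by
    have : ∑ i, gm i = 2 * ∑ i, 1 / P i := by rw [Finset.mul_sum]
    rw [this]
    linarith
  -- parameters
  set Q : ℝ := Real.exp (L / 40) with hQ
  set J : ℕ := 2 * ⌈5 * l⌉₊ with hJ
  have hJ1 : 10 * l ≤ (J:ℝ) := by
    have := Nat.le_ceil (5 * l)
    rw [hJ]; push_cast; linarith
  have hJ2 : (J:ℝ) ≤ 12 * l := by
    have := Nat.ceil_lt_add_one (show 0 ≤ 5 * l by positivity)
    rw [hJ]; push_cast; linarith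
  have hJe : Even J := ⟨⌈5 * l⌉₊, by rw [hJ]; ring⟩
  have hQ1 : 1 ≤ Q := Real.one_le_exp (by positivity)
  have hzJ : z ^ J ≤ Real.exp (23 * L / 1000) := by
    rw [hzexp, ← Real.exp_nat_mul]
    apply Real.exp_le_exp.mpr
    calc (J:ℝ) * Real.log z ≤ (12 * l) * Z :=
          mul_le_mul hJ2 hlz1 hlzpos.le (by positivity)
      _ ≤ 23 * L / 1000 := by
          have : 12 * l * Z = (12000 * l * Z) / 1000 := by ring
          rw [this]
          linarith
  -- sizes of supports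
  have hsupp : ∀ D : Col n κ, qq P D ≤ Q → ((supp D).card : ℝ) ≤ L / 40 := by
    intro D hD
    have h1 : Real.exp ((supp D).card : ℝ) ≤ qq P D := by
      unfold qq
      rw [prod_nu1]
      have : Real.exp ((supp D).card : ℝ) = ∏ i ∈ supp D, Real.exp 1 := by
        rw [Finset.prod_const, ← Real.exp_nat_mul, mul_one]
      rw [this]
      apply Finset.prod_le_prod
      · intro i _; exact (Real.exp_pos _).le
      · intro i _
        have := Real.exp_one_lt_d9
        linarith [hPy i]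
    have h2 := h1.trans hD
    rw [hQ] at h2
    exact Real.exp_le_exp.mp h2
  have hδ : ∀ D : Col n κ, qq P D ≤ Q → 2 * ∑ i with D i ≠ none, gm i ≤ 1 / L ^ 2 := by
    intro D hD
    have h1 : ∑ i with D i ≠ none, gm i ≤ (supp D).card * (2 / L ^ 3) := by
      have : ∑ i ∈ supp D, gm i ≤ ∑ i ∈ supp D, (2 / L ^ 3) :=
        Finset.sum_le_sum (fun i _ => hgmy i)
      rw [Finset.sum_const, nsmul_eq_mul] at this
      exact this
    have h2 := hsupp D hD
    have h3 : ((supp D).card : ℝ) * (2 / L ^ 3) ≤ L / 40 * (2 / L ^ 3) :=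
      mul_le_mul_of_nonneg_right h2 (by positivity)
    have h4 : L / 40 * (2 / L ^ 3) = (1 / L ^ 2) / 20 := by field_simp; norm_num
    have h5 : 0 ≤ 1 / L ^ 2 := by positivity
    linarith
  -- the count
  have hevent : ∀ D : Col n κ, qq P D ≤ Q ^ 2 * z ^ J →
      |((𝒜.filter (fun a => ∀ i, D i ≠ none → colh PP hit a i = D i)).card : ℝ) - N * nuc G D| ≤
        Err := by
    intro D hD
    have h1 : (𝒜.filter (fun a => ∀ i, D i ≠ none → colh PP hit a i = D i)) =
        𝒜.filter (fun a => ∀ p ∈ TT PP D, hit p a (sT PP D p)) := by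
      apply Finset.filter_congr
      intro a _
      exact event_iff' huniq D a
    rw [h1]
    have h2 : ∏ p ∈ TT PP D, g p (sT PP D p) = nuc G D := V1x.TT_nuc PP g D
    rw [← h2]
    apply hcount (TT PP D) (sT PP D)
    · rw [TT_prod]
      refine le_trans hD ?_
      rw [hXr]
      calc Q ^ 2 * z ^ J ≤ Real.exp (L / 40) ^ 2 * Real.exp (23 * L / 1000) :=
            mul_le_mul_of_nonneg_left hzJ (by positivity)
        _ = Real.exp (L / 20 + 23 * L / 1000) := by
            rw [← Real.exp_nat_mul, ← Real.exp_add]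
            congr 1
            push_cast
            ring
        _ ≤ Real.exp (1 / 4 * L) := Real.exp_le_exp.mpr (by linarith)
    · intro p hp
      have := hPPmem p (TT_mem hp)
      exact ⟨this.1, this.2.1, this.2.2.1⟩
  have hn1 : (n:ℝ) + 1 ≤ z := by
    have h1 : PP ⊆ Finset.Icc 2 ⌊z⌋₊ := by
      intro p hp
      have hp' := hp
      rw [hPP] at hp'
      unfold SP at hp'
      rw [Finset.mem_filter, Finset.mem_Icc] at hp'
      rw [Finset.mem_Icc]
      exact ⟨hp'.2.1.two_le, hp'.1.2⟩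
    have h2 := Finset.card_le_card h1
    rw [Nat.card_Icc] at h2
    have h3 : 1 ≤ ⌊z⌋₊ := Nat.le_floor (by
      push_cast
      have : Real.exp 0 ≤ z := by rw [hzexp]; exact Real.exp_le_exp.mpr hlzpos.le
      simpa using this)
    have h4 : n + 1 ≤ ⌊z⌋₊ := by
      rw [hn]
      omega
    calc (n:ℝ) + 1 ≤ (⌊z⌋₊ : ℝ) := by exact_mod_cast h4
      _ ≤ z := Nat.floor_le hzpos.le
  have hNpos : 0 < N := hN
  -- apply the core theorem
  obtain ⟨a, ha, hcov⟩ := core_c (κ := κ) 𝒜 (colh PP hit) H gm hgm0 hGm Q (1 / L ^ 2) 3 N Err J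
    hJe (by norm_num) hNpos hErr0 hQ1 hPz
    (fun i => by
      have := hgmL i
      linarith)
    (fun i => by
      have := hgmL i
      linarith)
    (fun i => by
      have h1 : u * gm i ≤ (L / 8) * (1 / L ^ 2) :=
        mul_le_mul huL8 (hgmL i) (hgm0 i) (by positivity)
      have h2 : (L / 8) * (1 / L ^ 2) = 1 / (8 * L) := by field_simp
      have h3 : 1 / (8 * L) ≤ 1 := by rw [div_le_one (by positivity)]; linarith
      linarith)
    hδ
    (by
      have h1 : u * (1 / L ^ 2) ≤ (L / 8) * (1 / L ^ 2) :=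
        mul_le_mul_of_nonneg_right huL8 (by positivity)
      have h2 : (L / 8) * (1 / L ^ 2) = 1 / (8 * L) := by field_simp
      have h3 : 1 / (8 * L) ≤ 1 / 4 := by
        rw [div_le_div_iff₀ (by positivity) (by norm_num)]
        linarith
      linarith)
    (by
      have hy1inv : 1 / y₁ ≤ 1 / L ^ 2 := one_div_le_one_div_of_le (by positivity) hy1L
      have h1 : ∑ i, 1 / (P i) ^ 2 ≤ (1 / L ^ 2) * ∑ i, 1 / P i := by
        rw [Finset.mul_sum]
        apply Finset.sum_le_sum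
        intro i _
        have hp := hP0 i
        have : 1 / (P i) ^ 2 = (1 / P i) * (1 / P i) := by field_simp
        rw [this]
        exact mul_le_mul_of_nonneg_right ((hPy' i).trans hy1inv) (by positivity)
      have h2 : (1 / L ^ 2) * ∑ i, 1 / P i ≤ (1 / L ^ 2) * (2 * L) := by
        apply mul_le_mul_of_nonneg_left _ (by positivity)
        linarith
      have h3 : (1 / L ^ 2) * (2 * L) = 2 / L := by field_simp
      have h4 : 2 * u * ∑ i, 1 / (P i) ^ 2 ≤ 2 * (L / 8) * (2 / L) := by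
        apply mul_le_mul _ (by linarith) (Finset.sum_nonneg (fun i _ => by
          have := hP0 i
          positivity))
          (by positivity)
        linarith
      have e : 2 * (L / 8) * (2 / L) = 1 / 2 := by field_simp; norm_num
      linarith)
    (V1x.tail u K L l c c₂ z Z hu0 hLpos f1 hLexp hc0 hc₂ hcc hκ hK8 hK0 huL8 f5 hzpos hlzpos
      hlz1 f7)
    (V1x.mom u L l CM J _ hu0 (by linarith) hLexp f2 hJ1 hGs)
    hevent
    (fin_rel u L n J z Q Err N hu0 hn1 hzJ hQ (by linarith) f5 hErr0 hN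
      (by rw [← hXr]; exact hErr))
  refine ⟨a, ha, fun k => ?_⟩
  obtain ⟨i, hi⟩ := hcov k
  have h1 := (colh_eq huniq a i k).mp hi
  have h2 := hPPmem _ (emb_mem PP i)
  exact ⟨emb PP i, h2.1, h2.2.1, h2.2.2.2.trans hzZ, h2.2.2.1, h1⟩

end Pool.Agent.U602.SQ
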