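import Pool.Agent.U602.SQ.Main
import Pool.Agent.U602.AB.Family

set_option autoImplicit false
set_option linter.unusedSectionVars false

/-! Record gaps around numbers and their squares, with a prescribed value of a function with values in a
finite abelian group. -/

namespace Pool.Agent.U602.SQ

open Finset Filter Topology
open Pool.Agent.H469R2.NK (e norm_e e_add e_zero)
open Pool.Agent.W147.PS (ff ff_compare ev_pow)
open Pool.Agent.TH915.PW (class_le)
open Pool.Agent.U602.AU (geom_real)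
open Pool.Agent.U602.AB (fibre_sum Blocks)

/-- the criterion from exponential sums over the rationals `h / q` -/
theorem crit_int_sq (η : ℝ) (h0 : 0 < η) (h1 : η ≤ 1 / 2) : ∃ κ : ℝ, 0 < κ ∧ ∀ᶠ M : ℝ in atTop,
    ∀ 𝒮 : Finset ℤ, 𝒮.Nonempty → (∀ a ∈ 𝒮, M / 2 ≤ (a : ℝ)) →
    (∀ q h : ℕ, (q : ℝ) ≤ M ^ η → 1 ≤ h → h < q →
      ‖∑ a ∈ 𝒮, e ((h : ℝ) / q * a)‖ ≤ 𝒮.card * M ^ (-η)) →
    ∃ a ∈ 𝒮, ∀ q : ℕ, q.Prime → κ * ff M < |(q : ℝ) - a| ∧ κ * ff M < |(q : ℝ) - (a : ℝ) ^ 2| := by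
  classical
  obtain ⟨c, hc, Y₀, hcr⟩ := crit_sq
  refine ⟨c * (η / 32), by positivity, ?_⟩
  filter_upwards [ff_compare η h0 (by linarith), (tendsto_rpow_atTop h0).eventually_ge_atTop Y₀,
    eventually_ge_atTop (1 : ℝ), ev_pow (1 / 2) 1 4 (by norm_num)] with M hM hMY hM1 hM4
  intro 𝒮 h𝒮 ha hE
  have hM0 : 0 < M := by linarith
  rw [Real.rpow_one] at hM4
  have hY0 : 0 < M ^ η := Real.rpow_pos_of_pos hM0 _
  have hYM : M ^ η ≤ M ^ (1 / 2 : ℝ) := Real.rpow_le_rpow_of_exponent_le hM1 h1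
  have hh0 : 0 < M ^ (1 / 2 : ℝ) := Real.rpow_pos_of_pos hM0 _
  obtain ⟨m, hm, hm2⟩ := hcr (M ^ η) hMY 𝒮 h𝒮 (fun a h => by
      have := ha a h
      linarith) (by
    intro q hq1 hq2 r
    have h2 := class_le 𝒮 (fun a => a) q hq1 (𝒮.card * M ^ (-η)) (by positivity)
      (fun h hh1 hh2 => hE q h hq2 hh1 hh2) r
    refine h2.trans (le_of_eq ?_)
    rw [Real.rpow_neg hM0.le]
    rfl)
  refine ⟨m, hm, fun q hq => ?_⟩
  have h3 := (hM.2 (M ^ η) le_rfl (by
    calc M ^ η ≤ M ^ (2 : ℝ) := Real.rpow_le_rpow_of_exponent_le hM1 (by linarith)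
      _ = M ^ 2 := by norm_cast)).1
  have h4 : c * (η / 32) * ff M ≤ c * Pool.Agent.H426R3.SQ.ff (M ^ η) := by
    have h5 : Pool.Agent.H426R3.SQ.ff (M ^ η) = ff (M ^ η) := rfl
    rw [h5]
    calc c * (η / 32) * ff M = c * (η / 32 * ff M) := by ring
      _ ≤ _ := mul_le_mul_of_nonneg_left h3 hc.le
  obtain ⟨h6, h7⟩ := hm2 q hq
  exact ⟨lt_of_le_of_lt h4 h6, lt_of_le_of_lt h4 h7⟩

section

variable {G : Type} [AddCommGroup G] [Fintype G]

open scoped Classical in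
theorem block_group_sq (η : ℝ) (hη0 : 0 < η) (hη1 : η ≤ 1 / 2) :
    ∃ κ : ℝ, 0 < κ ∧ ∀ᶠ M : ℝ in atTop, ∀ N H : ℕ, M / 2 ≤ N → M ^ (4 * η) ≤ H →
      ∀ S : ℕ → G, (∀ χ : AddChar G ℂ, χ ≠ 0 → ∀ x : ℝ,
        ‖∑ n ∈ range H, χ (S n) * e (n * x)‖ ≤ H * M ^ (-(2 * η))) →
      ∀ g : G, ∃ n < H, S n = g ∧
        ∀ q : ℕ, q.Prime → κ * ff M < |(q : ℝ) - ((N + n : ℕ) : ℝ)| ∧
          κ * ff M < |(q : ℝ) - ((N + n : ℕ) : ℝ) ^ 2| := by
  obtain ⟨κ, hκ, hblock⟩ := crit_int_sq η hη0 hη1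
  refine ⟨κ, hκ, ?_⟩
  set cG : ℝ := (Fintype.card G : ℝ) with hcG
  have hcG1 : 1 ≤ cG := by
    rw [hcG]
    exact_mod_cast Fintype.card_pos
  filter_upwards [hblock, eventually_ge_atTop (1 : ℝ), ev_pow 0 η (8 * cG) hη0]
    with M hM hM1 hM8
  intro N H hN hH S hS g
  have hM0 : 0 < M := by linarith
  rw [Real.rpow_zero, mul_one] at hM8
  have hMη0 : 0 < M ^ η := by linarith
  set s : Finset ℕ := (range H).filter (fun n => S n = g) with hs
  have hH0 : (0 : ℝ) < H := lt_of_lt_of_le (by positivity) hH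
  have hdiff := fibre_sum H S (H * M ^ (-(2 * η))) (by positivity) hS g
  have h2η : M ^ (-(2 * η)) = M ^ (-η) * M ^ (-η) := by
    rw [← Real.rpow_add hM0]
    congr 1
    ring
  have hMn : M ^ (-η) ≤ 1 / (8 * cG) := by
    rw [Real.rpow_neg hM0.le, ← one_div]
    exact one_div_le_one_div_of_le (by positivity) hM8
  have hMn0 : 0 < M ^ (-η) := by positivity
  have hcard : (H : ℝ) / 2 ≤ cG * s.card := by
    have h1 := hdiff 0
    simp only [zero_mul, mul_zero, e_zero, sum_const, nsmul_eq_mul, mul_one, card_range] at h1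
    have h2 : ((Fintype.card G : ℂ) * (s.card : ℂ) - (H : ℂ)) =
        ((cG * s.card - H : ℝ) : ℂ) := by
      rw [hcG]; push_cast; ring
    rw [h2, Complex.norm_real, Real.norm_eq_abs] at h1
    have h3 := (abs_le.mp h1).1
    have h4 : cG * (H * M ^ (-(2 * η))) ≤ H / 8 := by
      rw [h2η]
      have h5 : cG * M ^ (-η) ≤ 1 / 8 := by
        calc cG * M ^ (-η) ≤ cG * (1 / (8 * cG)) := by gcongr
          _ = 1 / 8 := by field_simp
      have h6 : M ^ (-η) ≤ 1 := by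
        refine hMn.trans ?_
        rw [div_le_one (by positivity)]
        linarith
      calc cG * (H * (M ^ (-η) * M ^ (-η))) = (cG * M ^ (-η)) * (H * M ^ (-η)) := by ring
        _ ≤ 1 / 8 * (H * 1) := by gcongr
        _ = _ := by ring
    linarith
  have hspos : (0 : ℝ) < s.card := by
    by_contra hneg
    push Not at hneg
    have h1 : (s.card : ℝ) = 0 := le_antisymm hneg (Nat.cast_nonneg _)
    rw [h1, mul_zero] at hcard
    linarith
  have hinj : Function.Injective (fun n : ℕ => ((N + n : ℕ) : ℤ)) := fun a b h => by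
    simpa using h
  obtain ⟨m, hm, h1⟩ := hM (s.image (fun n => ((N + n : ℕ) : ℤ))) (by
      rw [image_nonempty, ← card_pos]
      exact_mod_cast hspos) (by
    intro m hm
    obtain ⟨n, _, rfl⟩ := mem_image.1 hm
    push_cast
    have : (0 : ℝ) ≤ n := Nat.cast_nonneg n
    linarith) (by
    intro q h hqM hh1 hh2
    obtain ⟨θ, hθd⟩ : ∃ θ : ℝ, θ = (h : ℝ) / q := ⟨_, rfl⟩
    have hq0 : (0 : ℝ) < q := by exact_mod_cast (by omega : 0 < q)
    have hθ : ∀ k : ℤ, M ^ (-η) ≤ |θ - k| := by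
      intro k
      have e1 : θ - k = ((h - k * q : ℤ) : ℝ) / q := by
        rw [hθd]
        push_cast
        field_simp
      have e2 : (h - k * q : ℤ) ≠ 0 := by
        intro h0
        have h3 : (h : ℤ) = k * q := by linarith
        have h4 : (q : ℤ) ∣ h := ⟨k, by linarith⟩
        have h5 : q ∣ h := by exact_mod_cast h4
        have := Nat.le_of_dvd (by omega) h5
        omega
      have e3 : (1 : ℝ) ≤ |((h - k * q : ℤ) : ℝ)| := by exact_mod_cast Int.one_le_abs e2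
      rw [e1, abs_div, abs_of_pos hq0, le_div_iff₀ hq0]
      calc M ^ (-η) * q ≤ M ^ (-η) * M ^ η := by gcongr
        _ = 1 := by rw [← Real.rpow_add hM0]; simp
        _ ≤ _ := e3
    rw [card_image_of_injective _ hinj, sum_image (fun a _ b _ h => hinj h), ← hθd]
    have e1 : ∑ n ∈ s, e (θ * (((N + n : ℕ) : ℤ) : ℝ)) = e (θ * N) * ∑ n ∈ s, e (θ * n) := by
      rw [mul_sum]
      refine sum_congr rfl fun n _ => ?_
      rw [← e_add]
      congr 1
      push_cast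
      ring
    rw [e1, norm_mul, norm_e, one_mul]
    have e2 := hdiff θ
    have e3 := geom_real θ (M ^ (-η)) (by positivity) hθ H
    have e5 : ‖(Fintype.card G : ℂ) * ∑ n ∈ s, e (θ * n)‖ ≤
        ‖(Fintype.card G : ℂ) * (∑ n ∈ s, e (θ * n)) - ∑ n ∈ range H, e (n * θ)‖ +
          ‖∑ n ∈ range H, e (n * θ)‖ := by
      have := norm_add_le ((Fintype.card G : ℂ) * (∑ n ∈ s, e (θ * n)) -
          ∑ n ∈ range H, e (n * θ)) (∑ n ∈ range H, e (n * θ))
      rwa [sub_add_cancel] at this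
    rw [norm_mul, Complex.norm_natCast] at e5
    have e6 : cG * ‖∑ n ∈ s, e (θ * n)‖ ≤ cG * (s.card * M ^ (-η)) := by
      have e7 : cG * ‖∑ n ∈ s, e (θ * n)‖ ≤
          cG * (H * M ^ (-(2 * η))) + 2 / M ^ (-η) := by linarith
      refine e7.trans ?_
      have e8 : cG * (H * M ^ (-(2 * η))) ≤ H / 8 * M ^ (-η) := by
        rw [h2η]
        calc cG * (H * (M ^ (-η) * M ^ (-η))) = (cG * M ^ (-η)) * (H * M ^ (-η)) := by ring
          _ ≤ (cG * (1 / (8 * cG))) * (H * M ^ (-η)) := by gcongr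
          _ = _ := by field_simp
      have e9 : 2 / M ^ (-η) ≤ H / 4 * M ^ (-η) := by
        have g1 : M ^ (4 * η) = M ^ η * M ^ η * (M ^ η * M ^ η) := by
          rw [← Real.rpow_add hM0, ← Real.rpow_add hM0]
          congr 1
          ring
        have g2 : 2 / M ^ (-η) = 2 * M ^ η := by
          rw [Real.rpow_neg hM0.le]
          field_simp
        rw [g2]
        have g3 : M ^ η * M ^ (-η) = 1 := by
          rw [← Real.rpow_add hM0]; simp
        have g5 : (8 : ℝ) ≤ M ^ η := by linarith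
        calc 2 * M ^ η = 8 * M ^ η / 4 * (1 * 1) := by ring
          _ ≤ M ^ η * M ^ η / 4 * (M ^ η * (M ^ η * M ^ (-η))) := by
              rw [g3]
              have : (1 : ℝ) ≤ M ^ η := by linarith
              gcongr
          _ = M ^ η * M ^ η * (M ^ η * M ^ η) / 4 * M ^ (-η) := by ring
          _ ≤ H / 4 * M ^ (-η) := by
              rw [← g1]
              gcongr
      have e10 : cG * (s.card * M ^ (-η)) = (cG * s.card) * M ^ (-η) := by ring
      rw [e10]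
      have e11 : (H : ℝ) / 2 * M ^ (-η) ≤ (cG * s.card) * M ^ (-η) := by gcongr
      have e12 : 0 ≤ (H : ℝ) * M ^ (-η) := by positivity
      nlinarith
    exact le_of_mul_le_mul_left e6 (by linarith))
  obtain ⟨n, hn, rfl⟩ := mem_image.1 hm
  rw [hs, mem_filter, mem_range] at hn
  refine ⟨n, hn.1, hn.2, fun q hq => ?_⟩
  have := h1 q hq
  simpa using this

open scoped Classical in
theorem family_sq (f₀ : ℕ → G) (hf : Blocks f₀) (ε : ℝ) (hε : 0 < ε) :
    ∃ κ : ℝ, 0 < κ ∧ ∀ᶠ X : ℝ in atTop, ∀ g : G, X ^ (1 - ε) ≤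
      (((range (⌊X⌋₊ + 1)).filter (fun n => f₀ n = g ∧
        ∀ q : ℕ, q.Prime → κ * ff X < |(q : ℝ) - (n : ℝ)| ∧
          κ * ff X < |(q : ℝ) - (n : ℝ) ^ 2|)).card : ℝ) := by
  obtain ⟨γ, hγ, hblocks⟩ := hf
  set ε₁ : ℝ := min (ε / 2) (1 / 4) with hε₁d
  have hε₁ : 0 < ε₁ := by rw [hε₁d]; positivity
  have hε₁a : ε₁ ≤ ε / 2 := min_le_left _ _
  have hε₁c : ε₁ ≤ 1 / 4 := min_le_right _ _
  set η : ℝ := min (1 / 2) (min (ε₁ / 8) (γ * ε₁ / 2)) with hηd
  have hη : 0 < η := by rw [hηd]; positivity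
  have hη1 : η ≤ 1 / 2 := min_le_left _ _
  have hη2 : η ≤ ε₁ / 8 := (min_le_right _ _).trans (min_le_left _ _)
  have hη3 : η ≤ γ * ε₁ / 2 := (min_le_right _ _).trans (min_le_right _ _)
  obtain ⟨κ, hκ, hloc⟩ := block_group_sq (G := G) η hη hη1
  refine ⟨κ, hκ, ?_⟩
  filter_upwards [hloc, hblocks ε₁ hε₁, eventually_ge_atTop (4 : ℝ),
    ev_pow (4 * η) ε₁ 4 (by linarith),
    ev_pow ε₁ 1 24 (by linarith),
    ev_pow (1 - ε) (1 - ε₁) 24 (by linarith)]
    with X hX hXblocks hX4 p1 p2 p3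
  intro g
  have hX0 : 0 < X := by linarith
  rw [Real.rpow_one] at p2
  obtain ⟨B, hB1, hB2, hN⟩ := hXblocks
  choose N hN1 hN2 hN3 using hN
  have hB0 : (0 : ℝ) < B := lt_of_lt_of_le (by positivity) hB1
  have hBpos : 0 < B := by exact_mod_cast hB0
  set W : ℕ := ⌊(X / 2 - 1) / (3 * B)⌋₊ with hW
  have hW1 : (W : ℝ) * (3 * B) ≤ X / 2 - 1 := by
    rw [← le_div_iff₀ (by positivity)]
    apply Nat.floor_le
    apply div_nonneg _ (by positivity)
    linarith
  have hBX : 24 * (B : ℝ) ≤ X := by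
    have : 24 * (B : ℝ) ≤ 24 * X ^ ε₁ := by linarith
    linarith
  have hXB : 24 ≤ X / B := by
    rw [le_div_iff₀ hB0]
    exact hBX
  have hW2 : X / (12 * B) ≤ W := by
    have h1 : (X / 2 - 1) / (3 * B) < W + 1 := Nat.lt_floor_add_one _
    have h2 : X / (12 * B) + 1 ≤ (X / 2 - 1) / (3 * B) := by
      rw [le_div_iff₀ (by positivity)]
      have h3 : (X / (12 * B) + 1) * (3 * B) = X / 4 + 3 * B := by field_simp; ring
      rw [h3]
      have h4 : (1 : ℝ) ≤ B := by exact_mod_cast hBpos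
      linarith
    linarith
  set x : ℕ → ℕ := fun i => ⌈X / 2⌉₊ + i * (3 * B) with hx
  have hxlo : ∀ i, X / 2 ≤ ((N (x i) : ℕ) : ℝ) := by
    intro i
    refine (Nat.le_ceil (X / 2)).trans ?_
    have : ⌈X / 2⌉₊ ≤ N (x i) := le_trans (by rw [hx]; exact Nat.le_add_right _ _) (hN1 (x i))
    exact_mod_cast this
  have hxhi : ∀ i < W, ((N (x i) : ℕ) : ℝ) + B ≤ X := by
    intro i hi
    have h1 : N (x i) + B ≤ ⌈X / 2⌉₊ + (i + 1) * (3 * B) := by
      have h2 := hN2 (x i)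
      have h3 : x i = ⌈X / 2⌉₊ + i * (3 * B) := rfl
      have h4 : (i + 1) * (3 * B) = i * (3 * B) + 3 * B := by ring
      omega
    have h2 : ((N (x i) + B : ℕ) : ℝ) ≤ ((⌈X / 2⌉₊ + (i + 1) * (3 * B) : ℕ) : ℝ) := by
      exact_mod_cast h1
    push_cast at h2
    have h3 : ((⌈X / 2⌉₊ : ℕ) : ℝ) < X / 2 + 1 := Nat.ceil_lt_add_one (by positivity)
    have h4 : ((i : ℝ) + 1) * (3 * B) ≤ W * (3 * B) := by
      have : ((i + 1 : ℕ) : ℝ) ≤ W := by exact_mod_cast hi
      push_cast at this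
      gcongr
    linarith
  have hsepi : ∀ i j, i < j → N (x i) + B ≤ N (x j) := by
    intro i j hij
    have h2 := hN2 (x i)
    have h3 := hN1 (x j)
    have h4 : x j = x i + (j - i) * (3 * B) := by
      have : j = i + (j - i) := by omega
      have h5 : j * (3 * B) = i * (3 * B) + (j - i) * (3 * B) := by
        rw [← add_mul]; congr 1
      simp only [hx]
      omega
    have h5 : 1 * (3 * B) ≤ (j - i) * (3 * B) := Nat.mul_le_mul_right _ (by omega)
    omega
  have hpt : ∀ i ∈ range W, ∃ m < B, f₀ (N (x i) + m) = g ∧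
      ∀ q : ℕ, q.Prime → κ * ff X < |(q : ℝ) - ((N (x i) + m : ℕ) : ℝ)| ∧
        κ * ff X < |(q : ℝ) - ((N (x i) + m : ℕ) : ℝ) ^ 2| := by
    intro i _
    refine hX (N (x i)) B (hxlo i) (by
      refine le_trans ?_ hB1
      linarith) (fun m => f₀ (N (x i) + m)) ?_ g
    intro χ hχ θ
    refine (hN3 (x i) χ hχ θ).trans ?_
    apply mul_le_mul_of_nonneg_left _ hB0.le
    apply Real.rpow_le_rpow_of_exponent_le (by linarith)
    linarith
  choose! m hm1 hm2 hm3 using hpt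
  have hcardle : (range W).card ≤ ((range (⌊X⌋₊ + 1)).filter (fun n => f₀ n = g ∧
        ∀ q : ℕ, q.Prime → κ * ff X < |(q : ℝ) - (n : ℝ)| ∧
          κ * ff X < |(q : ℝ) - (n : ℝ) ^ 2|)).card := by
    apply card_le_card_of_injOn (fun i => N (x i) + m i)
    · intro i hi
      have hi' : i ∈ range W := hi
      simp only [coe_filter, mem_range, Set.mem_ofPred_eq]
      refine ⟨?_, hm2 i hi', hm3 i hi'⟩
      apply Nat.lt_succ_of_le
      apply Nat.le_floor
      have h1 := hm1 i hi'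
      have h2 := hxhi i (mem_range.1 hi')
      push_cast
      have h3 : ((m i : ℕ) : ℝ) ≤ B := by exact_mod_cast h1.le
      linarith
    · intro i hi j hj hij
      have h1 := hm1 i hi
      have h2 := hm1 j hj
      simp only at hij
      rcases lt_trichotomy i j with h | h | h
      · have := hsepi i j h
        omega
      · exact h
      · have := hsepi j i h
        omega
  rw [card_range] at hcardle
  refine le_trans ?_ (show (W : ℝ) ≤ _ by exact_mod_cast hcardle)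
  refine le_trans ?_ hW2
  rw [le_div_iff₀ (by positivity)]
  have h1 : X ^ (1 - ε₁) * X ^ ε₁ = X := by
    rw [← Real.rpow_add hX0]
    simp
  have h2 : 0 < X ^ (1 - ε) := by positivity
  calc X ^ (1 - ε) * (12 * B) ≤ X ^ (1 - ε) * (12 * X ^ ε₁) := by gcongr
    _ ≤ (24 * X ^ (1 - ε)) * X ^ ε₁ := by
        have : 0 < X ^ ε₁ := by positivity
        nlinarith [mul_pos h2 this]
    _ ≤ X ^ (1 - ε₁) * X ^ ε₁ := by gcongr
    _ = X := h1

end

end Pool.Agent.U602.SQ
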