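import Pool.Agent.U602.SQ.Main
import Pool.Agent.U602.AB.Family

set_option autoImplicit false
set_option linter.unusedSectionVars false

/-! Record gaps around the integer part of a smooth function and around its square. -/

namespace Pool.Agent.U602.SQ

open Finset Filter Topology
open Pool.Agent.H469R2.NK (e norm_e e_add e_zero)
open Pool.Agent.W147.PS (ff ff_compare ev_pow)
open Pool.Agent.TH915.PW (disc)
open Pool.Agent.U602.AB
open Pool.Agent.U602.SM (linear_approx diff_bounds unif combo_bounds hasDerivAt_combo e_sub_le)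
open Pool.Agent.U602.AU (geom_real)

/-- integer parts of real numbers whose exponential sums at the small rationals save a power -/
theorem crit_floor_sq (η : ℝ) (h0 : 0 < η) (h1 : η ≤ 1) : ∃ κ : ℝ, 0 < κ ∧ ∀ᶠ M : ℝ in atTop,
    ∀ (s : Finset ℕ) (a : ℕ → ℝ), s.Nonempty → (∀ i ∈ s, M ^ η ≤ a i) →
    Set.InjOn (fun i => ⌊a i⌋) s →
    (∀ q : ℕ, 1 ≤ q → (q : ℝ) ≤ M ^ η → ∀ h : ℕ, 1 ≤ h → (h : ℝ) ≤ M ^ η →
      ‖∑ i ∈ s, e ((h : ℝ) * (a i / q))‖ ≤ s.card * M ^ (-η)) →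
    ∃ i ∈ s, ∀ q : ℕ, q.Prime → κ * ff M < |(q : ℝ) - ⌊a i⌋| ∧
      κ * ff M < |(q : ℝ) - (⌊a i⌋ : ℝ) ^ 2| := by
  classical
  obtain ⟨c, hc, Y₀, hcr⟩ := crit_sq
  set θ : ℝ := η / 12 with hθ
  have hθ0 : 0 < θ := by positivity
  refine ⟨c * (θ / 32), by positivity, ?_⟩
  filter_upwards [ff_compare θ hθ0 (by linarith), (tendsto_rpow_atTop hθ0).eventually_ge_atTop Y₀,
    eventually_ge_atTop (1 : ℝ), ev_pow 0 θ 30 (by linarith), ev_pow θ η 2 (by linarith)]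
    with M hM hMY hM1 p1 p2
  intro s a hs ha hinj hE
  have hM0 : 0 < M := by linarith
  have hN : (0 : ℝ) < s.card := by exact_mod_cast hs.card_pos
  rw [Real.rpow_zero, mul_one] at p1
  set Y : ℝ := M ^ θ with hY
  have hY0 : 0 < Y := Real.rpow_pos_of_pos hM0 _
  have hY30 : 30 ≤ Y := p1
  have hYp : ∀ k : ℕ, Y ^ k = M ^ (k * θ) := by
    intro k
    rw [hY, ← Real.rpow_natCast, ← Real.rpow_mul hM0.le]
    congr 1
    ring
  have hη12 : M ^ η = Y ^ 12 := by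
    rw [hYp]
    congr 1
    rw [hθ]
    push_cast
    ring
  have hηm : M ^ (-η) = (Y ^ 12)⁻¹ := by rw [Real.rpow_neg hM0.le, hη12]
  set K : ℕ := ⌊Y ^ 2⌋₊ with hK
  have hKle : (K : ℝ) ≤ Y ^ 2 := Nat.floor_le (by positivity)
  have hKge : Y ^ 2 / 2 ≤ K := by
    have h2 := Nat.lt_floor_add_one (Y ^ 2)
    have h3 : (2 : ℝ) ≤ Y ^ 2 := by nlinarith
    linarith
  have hK0 : (0 : ℝ) < K := by
    have : 0 < Y ^ 2 := by positivity
    linarith
  have hK1 : 1 ≤ K := by exact_mod_cast hK0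
  have hK3 : (K : ℝ) ^ 3 ≤ Y ^ 6 := by
    calc (K : ℝ) ^ 3 ≤ (Y ^ 2) ^ 3 := pow_le_pow_left₀ hK0.le hKle 3
      _ = Y ^ 6 := by ring
  have hY612 : Y ^ 6 ≤ Y ^ 12 := pow_le_pow_right₀ (by linarith) (by norm_num)
  obtain ⟨m, hm, hm2⟩ := hcr Y hMY (s.image (fun i => ⌊a i⌋)) (hs.image _) (by
    intro z hz
    obtain ⟨i, hi, rfl⟩ := mem_image.1 hz
    have e1 := ha i hi
    have e2 := Int.lt_floor_add_one (a i)
    linarith) (by
    intro q hq hqY r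
    have hcimg : ((s.image (fun i => ⌊a i⌋)).filter (fun z => (q : ℤ) ∣ z - r)).card =
        (s.filter (fun i => (q : ℤ) ∣ ⌊a i⌋ - r)).card := by
      rw [filter_image, card_image_of_injOn]
      exact hinj.mono (by
        intro i hi
        rw [mem_coe, mem_filter] at hi
        exact hi.1)
    rw [hcimg, card_image_of_injOn hinj]
    have hq0 : (0 : ℝ) < q := by exact_mod_cast hq
    have hqi : (0 : ℤ) < q := by exact_mod_cast hq
    set r' : ℤ := r % q with hr'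
    have hr0 : 0 ≤ r' := Int.emod_nonneg _ hqi.ne'
    have hr1 : r' < q := Int.emod_lt_of_pos _ hqi
    have hr1' : (r' : ℝ) + 1 ≤ q := by exact_mod_cast hr1
    have hr0' : (0 : ℝ) ≤ r' := by exact_mod_cast hr0
    have hd := disc s (fun i => a i / q) K hK1 (s.card * (Y ^ 12)⁻¹) (by positivity) (by
      intro h hh1 hh2
      have e1 : (h : ℝ) ≤ M ^ η := by
        have : (h : ℝ) ≤ (K : ℝ) ^ 3 := by exact_mod_cast hh2.le
        rw [hη12]
        linarith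
      have e2 : (q : ℝ) ≤ M ^ η := by linarith
      rw [← hηm]
      exact hE q hq e2 h hh1 e1) (r' / q) ((r' + 1) / q) (by positivity)
      (by gcongr; linarith) (by rw [div_le_one hq0]; exact hr1')
    have hfil : s.filter (fun i => (q : ℤ) ∣ ⌊a i⌋ - r) =
        s.filter (fun i => (r' : ℝ) / q ≤ Int.fract (a i / q) ∧ Int.fract (a i / q) < (r' + 1) / q) := by
      apply Finset.filter_congr
      intro i _
      have hiff : (q : ℤ) ∣ ⌊a i⌋ - r ↔ ⌊a i⌋ % q = r' := by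
        rw [hr', ← Int.emod_emod_of_dvd (⌊a i⌋) (dvd_refl (q : ℤ))]
        constructor
        · intro h
          have h2 := Int.emod_emod_of_dvd (⌊a i⌋) (dvd_refl (q : ℤ))
          rw [h2]
          exact Int.emod_eq_emod_iff_emod_sub_eq_zero.mpr (Int.emod_eq_zero_of_dvd h)
        · intro h
          have h2 := Int.emod_emod_of_dvd (⌊a i⌋) (dvd_refl (q : ℤ))
          rw [h2] at h
          exact Int.dvd_of_emod_eq_zero (Int.emod_eq_emod_iff_emod_sub_eq_zero.mp h)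
      rw [hiff]
      set m : ℤ := ⌊a i⌋ / q with hm
      have hdm : (q : ℤ) * m + ⌊a i⌋ % q = ⌊a i⌋ := Int.mul_ediv_add_emod _ _
      set t : ℤ := ⌊a i⌋ % q with ht
      have ht0 : 0 ≤ t := Int.emod_nonneg _ hqi.ne'
      have ht1 : t < q := Int.emod_lt_of_pos _ hqi
      have hfa0 := Int.fract_nonneg (a i)
      have hfa1 := Int.fract_lt_one (a i)
      have hafl : a i = q * m + t + Int.fract (a i) := by
        have h5 : (⌊a i⌋ : ℝ) + Int.fract (a i) = a i := Int.floor_add_fract _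
        have h6 : (⌊a i⌋ : ℝ) = q * m + t := by
          rw [← hdm]; push_cast; ring
        linarith
      have ht1' : (t : ℝ) + 1 ≤ q := by exact_mod_cast ht1
      have ht0' : (0 : ℝ) ≤ t := by exact_mod_cast ht0
      have hfr : Int.fract (a i / q) = (t + Int.fract (a i)) / q := by
        rw [Int.fract_eq_iff]
        refine ⟨by positivity, ?_, m, ?_⟩
        · rw [div_lt_one hq0]; linarith
        · have : a i / q - (t + Int.fract (a i)) / q = (a i - (t + Int.fract (a i))) / q := by ring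
          rw [this, div_eq_iff hq0.ne']
          linarith
      rw [hfr, div_le_div_iff_of_pos_right hq0, div_lt_div_iff_of_pos_right hq0]
      constructor
      · intro h5
        rw [← h5]
        constructor <;> linarith
      · rintro ⟨h5, h6⟩
        have h7 : (r' : ℝ) < t + 1 := by linarith
        have h8 : (t : ℝ) < r' + 1 := by linarith
        have h7' : r' < t + 1 := by exact_mod_cast h7
        have h8' : t < r' + 1 := by exact_mod_cast h8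
        omega
    rw [hfil]
    have e1 : (s.card : ℝ) / q = s.card * ((r' + 1) / q - r' / q) := by
      field_simp
      ring
    rw [e1]
    refine hd.trans ?_
    have e2 : 14 * (s.card : ℝ) / K ≤ 28 * (s.card / Y ^ 2) := by
      rw [mul_div_assoc', div_le_div_iff₀ hK0 (by positivity)]
      nlinarith
    have e3 : (K : ℝ) ^ 3 * (s.card * (Y ^ 12)⁻¹) ≤ s.card / Y ^ 2 := by
      have h5 : (K : ℝ) ^ 3 * (Y ^ 12)⁻¹ ≤ (Y ^ 2)⁻¹ := by
        have h6 : Y ^ 6 * (Y ^ 12)⁻¹ = (Y ^ 6)⁻¹ := by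
          field_simp
        have h7 : (Y ^ 6)⁻¹ ≤ (Y ^ 2)⁻¹ :=
          inv_anti₀ (by positivity) (pow_le_pow_right₀ (by linarith) (by norm_num))
        calc (K : ℝ) ^ 3 * (Y ^ 12)⁻¹ ≤ Y ^ 6 * (Y ^ 12)⁻¹ := by gcongr
          _ ≤ _ := by rw [h6]; exact h7
      calc (K : ℝ) ^ 3 * (s.card * (Y ^ 12)⁻¹) = s.card * ((K : ℝ) ^ 3 * (Y ^ 12)⁻¹) := by ring
        _ ≤ s.card * (Y ^ 2)⁻¹ := by gcongr
        _ = _ := by rw [div_eq_mul_inv]
    calc _ ≤ 28 * (s.card / Y ^ 2) + 2 * (s.card / Y ^ 2) := by linarith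
      _ = 30 / Y * (s.card / Y) := by field_simp; ring
      _ ≤ 1 * (s.card / Y) := by
          gcongr
          rw [div_le_one hY0]
          exact hY30
      _ = _ := one_mul _)
  obtain ⟨i, hi, rfl⟩ := mem_image.1 hm
  refine ⟨i, hi, fun q hq => ?_⟩
  have h3 := (hM.2 Y le_rfl (by
    calc Y ≤ M ^ (2 : ℝ) := Real.rpow_le_rpow_of_exponent_le hM1 (by linarith)
      _ = M ^ 2 := by norm_cast)).1
  have h4 : c * (θ / 32) * ff M ≤ c * Pool.Agent.H426R3.SQ.ff Y := by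
    have h5 : Pool.Agent.H426R3.SQ.ff Y = ff Y := rfl
    rw [h5]
    calc c * (θ / 32) * ff M = c * (θ / 32 * ff M) := by ring
      _ ≤ _ := mul_le_mul_of_nonneg_left h3 hc.le
  obtain ⟨h6, h7⟩ := hm2 q hq
  exact ⟨lt_of_le_of_lt h4 h6, lt_of_le_of_lt h4 h7⟩

theorem block_smooth_sq (r : ℕ) (hr : 1 ≤ r) (j₀ : Fin r) (c : Fin r → ℝ) (cm : ℝ) (hc1 : ∀ j, 1 ≤ c j)
    (hcm : ∀ j, c j ≤ cm) (g0 : ℝ) (hgap : ∀ i j, i ≠ j → g0 ≤ |c i - c j|)
    (f f1 f2 : Fin r → ℝ → ℝ) (hd1 : ∀ j, ∀ᶠ t : ℝ in atTop, HasDerivAt (f j) (f1 j t) t)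
    (hd2 : ∀ j, ∀ᶠ t : ℝ in atTop, HasDerivAt (f1 j) (f2 j t) t)
    (hord : ∀ j, ∀ σ : ℝ, 0 < σ → ∀ᶠ t : ℝ in atTop,
      t ^ (c j - 2 - σ) ≤ |f2 j t| ∧ |f2 j t| ≤ t ^ (c j - 2 + σ))
    (τ : ℝ) (hτ : 0 < τ) (hpos : ∀ j, ∀ᶠ t : ℝ in atTop, t ^ τ ≤ f j t)
    (ε₁ : ℝ) (hε₂ : 4 * ε₁ ≤ 2 - cm) (D : ℝ) (hD : 1 ≤ D)
    (η : ℝ) (hη : 0 < η) (hη1 : η ≤ 1) (hη2 : η ≤ g0 / 4) (hη3 : η ≤ τ / 4) (hη4 : η ≤ ε₁ / 4) :
    (∀ᶠ t : ℝ in atTop, 1 ≤ f1 j₀ t) →
    ∃ κ : ℝ, 0 < κ ∧ ∀ᶠ X : ℝ in atTop,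
      ∀ B N0 : ℕ, (B : ℝ) ≤ X ^ ε₁ → X / D ≤ N0 → (N0 : ℝ) + B ≤ X →
      Good r f1 η X N0 → ∀ s : Finset ℕ, s.Nonempty → (∀ m ∈ s, m < B) →
      (∀ θ : ℝ, (∀ k : ℤ, X ^ (-((r + 10) * η)) ≤ |θ - k|) →
        ‖∑ m ∈ s, e (θ * m)‖ ≤ s.card * (X ^ (-η) / 2)) →
      ∃ m ∈ s, ∀ q : ℕ, q.Prime →
        κ * ff X < |(q : ℝ) - ⌊f j₀ ((N0 + m : ℕ) : ℝ)⌋| ∧
        κ * ff X < |(q : ℝ) - (⌊f j₀ ((N0 + m : ℕ) : ℝ)⌋ : ℝ) ^ 2| := by
  intro hone
  have hrR : (1 : ℝ) ≤ r := by exact_mod_cast hr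
  obtain ⟨κ, hκ, hcrit⟩ := crit_floor_sq η hη hη1
  refine ⟨κ, hκ, ?_⟩
  have hD0 : 0 < D := by linarith
  have hd1' : ∀ᶠ t : ℝ in atTop, ∀ j, HasDerivAt (f j) (f1 j t) t := eventually_all.2 hd1
  have hd2' : ∀ᶠ t : ℝ in atTop, ∀ j, HasDerivAt (f1 j) (f2 j t) t := eventually_all.2 hd2
  have hpos' : ∀ᶠ t : ℝ in atTop, ∀ j, t ^ τ ≤ f j t := eventually_all.2 hpos
  filter_upwards [hcrit, combo_bounds r c η D cm hη hD hc1 hcm
      (fun i j hij => by linarith [hgap i j hij]) f2 hord,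
    unif D hD0 hd1', unif D hD0 hd2', unif D hD0 hpos', unif D hD0 hone,
    eventually_ge_atTop (1 : ℝ),
    ev_pow η τ (D ^ τ) (by linarith),
    ev_pow (cm - 2 + 3 * η + 2 * ε₁) (-η) (4 * Real.pi) (by linarith)]
    with X hX hcombo hXd1 hXd2 hXpos hXone hX1 p1 p2
  intro B N0 hL2 hN1 hN2 hgood s hsne hsB hsum
  have hX0 : 0 < X := by linarith
  have hB0 : (0 : ℝ) ≤ B := Nat.cast_nonneg B
  have hsB' : ∀ m ∈ s, (m : ℝ) ≤ B := fun m hm => by exact_mod_cast (hsB m hm).le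
  exact hX s (fun m => f j₀ ((N0 + m : ℕ) : ℝ)) hsne (by
    intro m hm
    have e1 : X / D ≤ ((N0 + m : ℕ) : ℝ) := by
      push_cast
      have : (0 : ℝ) ≤ m := Nat.cast_nonneg m
      linarith
    refine le_trans ?_ (hXpos _ e1 j₀)
    have e2 : (X / D) ^ τ ≤ ((N0 + m : ℕ) : ℝ) ^ τ :=
      Real.rpow_le_rpow (by positivity) e1 hτ.le
    refine le_trans ?_ e2
    rw [Real.div_rpow hX0.le hD0.le, le_div_iff₀ (Real.rpow_pos_of_pos hD0 _), mul_comm]
    exact p1) (by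
    have hlt : ∀ m m' : ℕ, m < m' →
        ⌊f j₀ ((N0 + m : ℕ) : ℝ)⌋ < ⌊f j₀ ((N0 + m' : ℕ) : ℝ)⌋ := by
      intro m m' hmm
      have e0 : X / D ≤ ((N0 + m : ℕ) : ℝ) := by
        push_cast
        have : (0 : ℝ) ≤ m := Nat.cast_nonneg m
        linarith
      have e1 : ((N0 + m : ℕ) : ℝ) < ((N0 + m' : ℕ) : ℝ) := by exact_mod_cast (by omega)
      obtain ⟨c0, hc0, hc0'⟩ := exists_hasDerivAt_eq_slope (f j₀) (f1 j₀) e1
        (fun t ht => (hXd1 t (e0.trans ht.1) j₀).continuousAt.continuousWithinAt)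
        (fun t ht => hXd1 t (e0.trans ht.1.le) j₀)
      have e2 := hXone c0 (e0.trans hc0.1.le)
      rw [hc0', le_div_iff₀ (by linarith)] at e2
      have e3 : (1 : ℝ) ≤ ((N0 + m' : ℕ) : ℝ) - ((N0 + m : ℕ) : ℝ) := by
        have : ((N0 + m : ℕ) : ℝ) + 1 ≤ ((N0 + m' : ℕ) : ℝ) := by exact_mod_cast (by omega)
        linarith
      rw [Int.lt_iff_add_one_le, Int.le_floor]
      push_cast
      have e4 := Int.floor_le (f j₀ ((N0 + m : ℕ) : ℝ))
      push_cast at e2 e3 e4 ⊢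
      linarith
    intro m _ m' _ hmm
    rcases lt_trichotomy m m' with h | h | h
    · exact absurd hmm (hlt m m' h).ne
    · exact h
    · exact absurd hmm (hlt m' m h).ne') (by
    intro q hq hqX h' hh1 hh2
    set h : Fin r → ℤ := Pi.single j₀ (h' : ℤ) with hhd
    have hh : h ≠ 0 := by
      intro h0
      have := congrFun h0 j₀
      rw [hhd, Pi.single_eq_same] at this
      simp at this
      omega
    have hhX : ∀ j, |(h j : ℝ)| ≤ X ^ η := by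
      intro j
      by_cases hj : j = j₀
      · rw [hj, hhd, Pi.single_eq_same]
        simpa using hh2
      · rw [hhd, Pi.single_eq_of_ne hj]
        simp
        positivity
    have hq0 : (0 : ℝ) < q := by exact_mod_cast hq
    obtain ⟨c', hc'1, hc'm, hcb⟩ := hcombo q hq hqX h hh hhX
    set F : ℝ → ℝ := fun t => ∑ j, (h j : ℝ) * (f j t / q) with hF
    set F1 : ℝ → ℝ := fun t => ∑ j, (h j : ℝ) * (f1 j t / q) with hF1
    set F2 : ℝ → ℝ := fun t => ∑ j, (h j : ℝ) * (f2 j t / q) with hF2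
    set θ : ℝ := F1 N0 with hθ
    have happ : ∀ m ∈ s, |F ((N0 + m : ℕ) : ℝ) - (F N0 + θ * m)| ≤
        X ^ (cm - 2 + 3 * η) * (B : ℝ) ^ 2 := by
      intro m hm
      have := linear_approx F F1 F2 N0 B (X ^ (cm - 2 + 3 * η)) hB0
        (fun t ht1 ht2 => hasDerivAt_combo f f1 h q t (hXd1 t (hN1.trans ht1)))
        (fun t ht1 ht2 => hasDerivAt_combo f1 f2 h q t (hXd2 t (hN1.trans ht1)))
        (fun t ht1 ht2 => (hcb t (hN1.trans ht1) (ht2.trans hN2)).2.trans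
          (Real.rpow_le_rpow_of_exponent_le hX1 (by linarith))) m (Nat.cast_nonneg m) (hsB' m hm)
      push_cast
      exact this
    have hB2 : X ^ (cm - 2 + 3 * η) * (B : ℝ) ^ 2 ≤ X ^ (cm - 2 + 3 * η + 2 * ε₁) := by
      have e1 : (B : ℝ) ^ 2 ≤ (X ^ ε₁) ^ 2 := by gcongr
      have e2 : (X ^ ε₁) ^ 2 = X ^ (2 * ε₁) := by
        rw [← Real.rpow_natCast, ← Real.rpow_mul hX0.le]
        congr 1
        push_cast
        ring
      rw [Real.rpow_add hX0 (cm - 2 + 3 * η) (2 * ε₁), ← e2]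
      gcongr
    have herr : ‖∑ m ∈ s, e (F ((N0 + m : ℕ) : ℝ)) - ∑ m ∈ s, e (F N0 + θ * m)‖ ≤
        s.card * (X ^ (-η) / 2) := by
      rw [← sum_sub_distrib]
      refine (norm_sum_le _ _).trans ?_
      have e1 : ∀ m ∈ s, ‖e (F ((N0 + m : ℕ) : ℝ)) - e (F N0 + θ * m)‖ ≤ X ^ (-η) / 2 := by
        intro m hm
        refine (e_sub_le _ _).trans ?_
        have e2 := (happ m hm).trans hB2
        have e3 : 2 * Real.pi * |F ((N0 + m : ℕ) : ℝ) - (F N0 + θ * m)| ≤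
            2 * Real.pi * X ^ (cm - 2 + 3 * η + 2 * ε₁) := by gcongr
        linarith
      refine (sum_le_sum e1).trans (le_of_eq ?_)
      rw [sum_const, nsmul_eq_mul]
    have e1 : ∑ m ∈ s, e (F N0 + θ * m) = e (F N0) * ∑ m ∈ s, e (θ * m) := by
      rw [mul_sum]
      exact sum_congr rfl fun m _ => e_add _ _
    have hmain : ‖∑ m ∈ s, e (F N0 + θ * m)‖ ≤ s.card * (X ^ (-η) / 2) := by
      rw [e1, norm_mul, norm_e, one_mul]
      exact hsum θ (fun k => hgood q hq hqX h hh hhX k)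
    have hfin : ‖∑ m ∈ s, e (F ((N0 + m : ℕ) : ℝ))‖ ≤ s.card * X ^ (-η) := by
      have h1 : ∑ m ∈ s, e (F ((N0 + m : ℕ) : ℝ)) =
          (∑ m ∈ s, e (F ((N0 + m : ℕ) : ℝ)) - ∑ m ∈ s, e (F N0 + θ * m)) +
            ∑ m ∈ s, e (F N0 + θ * m) := by ring
      rw [h1]
      refine (norm_add_le _ _).trans ?_
      linarith
    refine le_trans (le_of_eq ?_) hfin
    congr 1
    refine sum_congr rfl fun m _ => ?_
    congr 1
    rw [hF]
    simp only
    rw [sum_eq_single j₀ (fun j _ hj => by rw [hhd, Pi.single_eq_of_ne hj]; simp)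
      (fun hj => absurd (mem_univ _) hj), hhd, Pi.single_eq_same]
    push_cast
    ring)

section

variable {G : Type} [AddCommGroup G] [Fintype G]

open scoped Classical in
theorem block_group_smooth_sq (r : ℕ) (hr : 1 ≤ r) (j₀ : Fin r) (c : Fin r → ℝ) (cm : ℝ) (hc1 : ∀ j, 1 ≤ c j)
    (hcm : ∀ j, c j ≤ cm) (g0 : ℝ) (hgap : ∀ i j, i ≠ j → g0 ≤ |c i - c j|)
    (f f1 f2 : Fin r → ℝ → ℝ) (hd1 : ∀ j, ∀ᶠ t : ℝ in atTop, HasDerivAt (f j) (f1 j t) t)
    (hd2 : ∀ j, ∀ᶠ t : ℝ in atTop, HasDerivAt (f1 j) (f2 j t) t)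
    (hord : ∀ j, ∀ σ : ℝ, 0 < σ → ∀ᶠ t : ℝ in atTop,
      t ^ (c j - 2 - σ) ≤ |f2 j t| ∧ |f2 j t| ≤ t ^ (c j - 2 + σ))
    (τ : ℝ) (hτ : 0 < τ) (hpos : ∀ j, ∀ᶠ t : ℝ in atTop, t ^ τ ≤ f j t)
    (ε₁ : ℝ) (hε₂ : 4 * ε₁ ≤ 2 - cm) (D : ℝ) (hD : 1 ≤ D)
    (η : ℝ) (hη : 0 < η) (hη1 : η ≤ 1) (hη2 : η ≤ g0 / 4) (hη3 : η ≤ τ / 4) (hη4 : η ≤ ε₁ / 4) :
    (∀ᶠ t : ℝ in atTop, 1 ≤ f1 j₀ t) →
    ∃ κ : ℝ, 0 < κ ∧ ∀ᶠ X : ℝ in atTop,
      ∀ B N0 : ℕ, X ^ ((r + 12) * η) ≤ B → (B : ℝ) ≤ X ^ ε₁ → X / D ≤ N0 → (N0 : ℝ) + B ≤ X →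
      Good r f1 η X N0 → ∀ S : ℕ → G, (∀ χ : AddChar G ℂ, χ ≠ 0 → ∀ x : ℝ,
        ‖∑ n ∈ range B, χ (S n) * e (n * x)‖ ≤ B * X ^ (-(2 * η))) →
      ∀ g : G, ∃ m < B, S m = g ∧
        ∀ q : ℕ, q.Prime → κ * ff X < |(q : ℝ) - ⌊f j₀ ((N0 + m : ℕ) : ℝ)⌋| ∧
          κ * ff X < |(q : ℝ) - (⌊f j₀ ((N0 + m : ℕ) : ℝ)⌋ : ℝ) ^ 2| := by
  intro hone
  obtain ⟨κ, hκ, hblock⟩ := block_smooth_sq r hr j₀ c cm hc1 hcm g0 hgap f f1 f2 hd1 hd2 hord τ hτ
    hpos ε₁ hε₂ D hD η hη hη1 hη2 hη3 hη4 hone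
  refine ⟨κ, hκ, ?_⟩
  set cG : ℝ := (Fintype.card G : ℝ) with hcG
  have hcG1 : 1 ≤ cG := by
    rw [hcG]
    exact_mod_cast Fintype.card_pos
  have hrR : (0 : ℝ) ≤ r := Nat.cast_nonneg r
  filter_upwards [hblock, eventually_ge_atTop (1 : ℝ), ev_pow 0 η (16 * cG) hη]
    with X hX hX1 hX8
  intro B N0 hBX hB hN1 hN2 hgood S hS g
  have hX0 : 0 < X := by linarith
  rw [Real.rpow_zero, mul_one] at hX8
  have hXη0 : 0 < X ^ η := by linarith
  set s : Finset ℕ := (range B).filter (fun n => S n = g) with hs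
  have hH0 : (0 : ℝ) < B := lt_of_lt_of_le (by positivity) hBX
  have hdiff := fibre_sum B S (B * X ^ (-(2 * η))) (by positivity) hS g
  have h2η : X ^ (-(2 * η)) = X ^ (-η) * X ^ (-η) := by
    rw [← Real.rpow_add hX0]
    congr 1
    ring
  have hMn : X ^ (-η) ≤ 1 / (16 * cG) := by
    rw [Real.rpow_neg hX0.le, ← one_div]
    exact one_div_le_one_div_of_le (by positivity) hX8
  have hMn0 : 0 < X ^ (-η) := by positivity
  have hcard : (B : ℝ) / 2 ≤ cG * s.card := by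
    have h1 := hdiff 0
    simp only [zero_mul, mul_zero, e_zero, sum_const, nsmul_eq_mul, mul_one, card_range] at h1
    have h2 : ((Fintype.card G : ℂ) * (s.card : ℂ) - (B : ℂ)) =
        ((cG * s.card - B : ℝ) : ℂ) := by
      rw [hcG]; push_cast; ring
    rw [h2, Complex.norm_real, Real.norm_eq_abs] at h1
    have h3 := (abs_le.mp h1).1
    have h4 : cG * (B * X ^ (-(2 * η))) ≤ B / 8 := by
      rw [h2η]
      have h5 : cG * X ^ (-η) ≤ 1 / 8 := by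
        calc cG * X ^ (-η) ≤ cG * (1 / (16 * cG)) := by gcongr
          _ = 1 / 16 := by field_simp
          _ ≤ 1 / 8 := by norm_num
      have h6 : X ^ (-η) ≤ 1 := by
        refine hMn.trans ?_
        rw [div_le_one (by positivity)]
        linarith
      calc cG * (B * (X ^ (-η) * X ^ (-η))) = (cG * X ^ (-η)) * (B * X ^ (-η)) := by ring
        _ ≤ 1 / 8 * (B * 1) := by gcongr
        _ = _ := by ring
    linarith
  have hspos : (0 : ℝ) < s.card := by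
    by_contra hneg
    push Not at hneg
    have h1 : (s.card : ℝ) = 0 := le_antisymm hneg (Nat.cast_nonneg _)
    rw [h1, mul_zero] at hcard
    linarith
  obtain ⟨m, hm, h1⟩ := hX B N0 hB hN1 hN2 hgood s (by
      rw [← card_pos]
      exact_mod_cast hspos) (fun m hm => by
        rw [hs, mem_filter, mem_range] at hm
        exact hm.1) (by
    intro θ hθ
    have e2 := hdiff θ
    have e3 := geom_real θ (X ^ (-((r + 10) * η))) (by positivity) hθ B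
    have e5 : ‖(Fintype.card G : ℂ) * ∑ n ∈ s, e (θ * n)‖ ≤
        ‖(Fintype.card G : ℂ) * (∑ n ∈ s, e (θ * n)) - ∑ n ∈ range B, e (n * θ)‖ +
          ‖∑ n ∈ range B, e (n * θ)‖ := by
      have := norm_add_le ((Fintype.card G : ℂ) * (∑ n ∈ s, e (θ * n)) -
          ∑ n ∈ range B, e (n * θ)) (∑ n ∈ range B, e (n * θ))
      rwa [sub_add_cancel] at this
    rw [norm_mul, Complex.norm_natCast] at e5
    have e6 : cG * ‖∑ n ∈ s, e (θ * n)‖ ≤ cG * (s.card * (X ^ (-η) / 2)) := by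
      have e7 : cG * ‖∑ n ∈ s, e (θ * n)‖ ≤
          cG * (B * X ^ (-(2 * η))) + 2 / X ^ (-((r + 10) * η)) := by linarith
      refine e7.trans ?_
      have e8 : cG * (B * X ^ (-(2 * η))) ≤ B / 16 * X ^ (-η) := by
        rw [h2η]
        calc cG * (B * (X ^ (-η) * X ^ (-η))) = (cG * X ^ (-η)) * (B * X ^ (-η)) := by ring
          _ ≤ (cG * (1 / (16 * cG))) * (B * X ^ (-η)) := by gcongr
          _ = _ := by field_simp
      have e9 : 2 / X ^ (-((r + 10) * η)) ≤ B / 8 * X ^ (-η) := by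
        have g2 : 2 / X ^ (-((r + 10) * η)) = 2 * X ^ ((r + 10) * η) := by
          rw [Real.rpow_neg hX0.le]
          field_simp
        rw [g2]
        have g4 : X ^ ((r + 12) * η) * X ^ (-η) = X ^ η * X ^ ((r + 10) * η) := by
          rw [← Real.rpow_add hX0, ← Real.rpow_add hX0]
          congr 1
          ring
        calc 2 * X ^ ((r + 10) * η) = 16 * X ^ ((r + 10) * η) / 8 := by ring
          _ ≤ X ^ η * X ^ ((r + 10) * η) / 8 := by
              gcongr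
              nlinarith
          _ = X ^ ((r + 12) * η) / 8 * X ^ (-η) := by
              rw [← g4]
              ring
          _ ≤ B / 8 * X ^ (-η) := by gcongr
      have e10 : cG * (s.card * (X ^ (-η) / 2)) = (cG * s.card) * X ^ (-η) / 2 := by ring
      rw [e10]
      have e11 : (B : ℝ) / 2 * X ^ (-η) ≤ (cG * s.card) * X ^ (-η) := by gcongr
      have e12 : 0 ≤ (B : ℝ) * X ^ (-η) := by positivity
      nlinarith
    exact le_of_mul_le_mul_left e6 (by linarith))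
  rw [hs, mem_filter, mem_range] at hm
  exact ⟨m, hm.1, hm.2, h1⟩


open scoped Classical in
theorem family_smooth_sq (f₀ : ℕ → G) (hf : Blocks f₀) (r : ℕ) (hr : 1 ≤ r) (j₀ : Fin r) (c : Fin r → ℝ)
    (hc1 : ∀ j, 1 ≤ c j) (hc2 : ∀ j, c j < 2) (hc : Function.Injective c)
    (f f1 f2 : Fin r → ℝ → ℝ) (hd1 : ∀ j, ∀ᶠ t : ℝ in atTop, HasDerivAt (f j) (f1 j t) t)
    (hd2 : ∀ j, ∀ᶠ t : ℝ in atTop, HasDerivAt (f1 j) (f2 j t) t)
    (hord : ∀ j, ∀ σ : ℝ, 0 < σ → ∀ᶠ t : ℝ in atTop,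
      t ^ (c j - 2 - σ) ≤ |f2 j t| ∧ |f2 j t| ≤ t ^ (c j - 2 + σ))
    (τ : ℝ) (hτ : 0 < τ) (hpos : ∀ j, ∀ᶠ t : ℝ in atTop, t ^ τ ≤ f j t)
    (hone : ∀ᶠ t : ℝ in atTop, 1 ≤ f1 j₀ t) (ε : ℝ) (hε : 0 < ε) :
    ∃ κ : ℝ, 0 < κ ∧ ∀ᶠ X : ℝ in atTop, ∀ g : G, X ^ (1 - ε) ≤
      (((range (⌊X⌋₊ + 1)).filter (fun n => f₀ n = g ∧
        ∀ q : ℕ, q.Prime → κ * ff X < |(q : ℝ) - ⌊f j₀ (n : ℝ)⌋| ∧
          κ * ff X < |(q : ℝ) - (⌊f j₀ (n : ℝ)⌋ : ℝ) ^ 2|)).card : ℝ) := by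
  obtain ⟨γ, hγ, hblocks⟩ := hf
  -- the largest exponent
  obtain ⟨cm, hcm, hcm2⟩ : ∃ cm : ℝ, (∀ j, c j ≤ cm) ∧ cm < 2 := by
    have hne : (univ : Finset (Fin r)).Nonempty := ⟨⟨0, hr⟩, mem_univ _⟩
    refine ⟨univ.sup' hne c, fun j => le_sup' c (mem_univ j), ?_⟩
    rw [sup'_lt_iff]
    exact fun j _ => hc2 j
  -- the gap
  obtain ⟨g0, hg0, hgap⟩ : ∃ g0 : ℝ, 0 < g0 ∧ ∀ i j, i ≠ j → g0 ≤ |c i - c j| := by
    have h1 : ∀ p : Fin r × Fin r, ∃ g : ℝ, 0 < g ∧ (p.1 ≠ p.2 → g ≤ |c p.1 - c p.2|) := by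
      intro p
      by_cases hp : p.1 = p.2
      · exact ⟨1, one_pos, fun h => absurd hp h⟩
      · exact ⟨|c p.1 - c p.2|, abs_pos.2 (sub_ne_zero.2 fun h => hp (hc h)), fun _ => le_rfl⟩
    choose g hg hg2 using h1
    have hne : (univ : Finset (Fin r × Fin r)).Nonempty := ⟨(⟨0, hr⟩, ⟨0, hr⟩), mem_univ _⟩
    refine ⟨univ.inf' hne g, ?_, ?_⟩
    · rw [lt_inf'_iff]
      exact fun p _ => hg p
    · intro i j hij
      exact (inf'_le g (mem_univ (i, j))).trans (hg2 (i, j) hij)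
  have hrR : (1 : ℝ) ≤ r := by exact_mod_cast hr
  set ε₁ : ℝ := min (ε / 2) (min ((2 - cm) / 4) (1 / 4)) with hε₁d
  have hε₁ : 0 < ε₁ := by
    have : 0 < 2 - cm := by linarith
    rw [hε₁d]
    positivity
  have hε₁a : ε₁ ≤ ε / 2 := min_le_left _ _
  have hε₁b : ε₁ ≤ (2 - cm) / 4 := (min_le_right _ _).trans (min_le_left _ _)
  have hε₁c : ε₁ ≤ 1 / 4 := (min_le_right _ _).trans (min_le_right _ _)
  set η : ℝ := min (min 1 (g0 / 4)) (min (τ / 4) (min (ε₁ / (2 * (r + 12))) (γ * ε₁ / 2))) with hηd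
  have hη : 0 < η := by rw [hηd]; positivity
  have hη1 : η ≤ 1 := (min_le_left _ _).trans (min_le_left _ _)
  have hη2 : η ≤ g0 / 4 := (min_le_left _ _).trans (min_le_right _ _)
  have hη3 : η ≤ τ / 4 := (min_le_right _ _).trans (min_le_left _ _)
  have hη4 : η ≤ ε₁ / (2 * (r + 12)) :=
    (min_le_right _ _).trans ((min_le_right _ _).trans (min_le_left _ _))
  have hη5 : η ≤ γ * ε₁ / 2 :=
    (min_le_right _ _).trans ((min_le_right _ _).trans (min_le_right _ _))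
  rw [le_div_iff₀ (by positivity)] at hη4
  obtain ⟨κ, hκ, hloc⟩ := block_group_smooth_sq (G := G) r hr j₀ c cm hc1 hcm g0 hgap f f1 f2 hd1 hd2
    hord τ hτ hpos ε₁ (by linarith) 2 (by norm_num) η hη hη1 hη2 hη3 (by nlinarith) hone
  have hbad := bad_count r hr c cm hc1 hcm g0 hgap f1 f2 hd2 hord ε₁ η hε₁
    hη (by linarith) (by linarith) (by linarith) (by nlinarith) 2 (by norm_num)
  refine ⟨κ, hκ, ?_⟩
  filter_upwards [hloc, hbad, hblocks ε₁ hε₁, eventually_ge_atTop (4 : ℝ),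
    ev_pow ((r + 12) * η) ε₁ 4 (by nlinarith),
    ev_pow ε₁ 1 24 (by linarith),
    ev_pow (1 - ε) (1 - ε₁) 24 (by linarith),
    ev_pow (-η) 0 24 (by linarith)]
    with X hX hXbad hXblocks hX4 p1 p2 p3 p4
  intro g
  have hX0 : 0 < X := by linarith
  rw [Real.rpow_one] at p2
  rw [Real.rpow_zero] at p4
  obtain ⟨B, hB1, hB2, hN⟩ := hXblocks
  choose N hN1 hN2 hN3 using hN
  have hB0 : (0 : ℝ) < B := lt_of_lt_of_le (by positivity) hB1
  have hBpos : 0 < B := by exact_mod_cast hB0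
  set W : ℕ := ⌊(X / 2 - 1) / (3 * B)⌋₊ with hW
  have hW1 : (W : ℝ) * (3 * B) ≤ X / 2 - 1 := by
    rw [← le_div_iff₀ (by positivity)]
    apply Nat.floor_le
    apply div_nonneg _ (by positivity)
    linarith
  have hBX : 24 * (B : ℝ) ≤ X := by
    have : 24 * (B : ℝ) ≤ 24 * X ^ ε₁ := by linarith
    linarith
  have hXB : 24 ≤ X / B := by
    rw [le_div_iff₀ hB0]
    exact hBX
  have hW2 : X / (12 * B) ≤ W := by
    have h1 : (X / 2 - 1) / (3 * B) < W + 1 := Nat.lt_floor_add_one _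
    have h2 : X / (12 * B) + 1 ≤ (X / 2 - 1) / (3 * B) := by
      rw [le_div_iff₀ (by positivity)]
      have h3 : (X / (12 * B) + 1) * (3 * B) = X / 4 + 3 * B := by field_simp; ring
      rw [h3]
      have h4 : (1 : ℝ) ≤ B := by exact_mod_cast hBpos
      linarith
    linarith
  set x : ℕ → ℕ := fun i => ⌈X / 2⌉₊ + i * (3 * B) with hx
  have hxlo : ∀ i, X / 2 ≤ ((N (x i) : ℕ) : ℝ) := by
    intro i
    refine (Nat.le_ceil (X / 2)).trans ?_
    have : ⌈X / 2⌉₊ ≤ N (x i) := le_trans (by rw [hx]; exact Nat.le_add_right _ _) (hN1 (x i))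
    exact_mod_cast this
  have hxhi : ∀ i < W, ((N (x i) : ℕ) : ℝ) + B ≤ X := by
    intro i hi
    have h1 : N (x i) + B ≤ ⌈X / 2⌉₊ + (i + 1) * (3 * B) := by
      have h2 := hN2 (x i)
      have h3 : x i = ⌈X / 2⌉₊ + i * (3 * B) := rfl
      have h4 : (i + 1) * (3 * B) = i * (3 * B) + 3 * B := by ring
      omega
    have h2 : ((N (x i) + B : ℕ) : ℝ) ≤ ((⌈X / 2⌉₊ + (i + 1) * (3 * B) : ℕ) : ℝ) := by
      exact_mod_cast h1
    push_cast at h2
    have h3 : ((⌈X / 2⌉₊ : ℕ) : ℝ) < X / 2 + 1 := Nat.ceil_lt_add_one (by positivity)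
    have h4 : ((i : ℝ) + 1) * (3 * B) ≤ W * (3 * B) := by
      have : ((i + 1 : ℕ) : ℝ) ≤ W := by exact_mod_cast hi
      push_cast at this
      gcongr
    linarith
  have hsepi : ∀ i j, i < j → N (x i) + B ≤ N (x j) := by
    intro i j hij
    have h2 := hN2 (x i)
    have h3 := hN1 (x j)
    have h4 : x j = x i + (j - i) * (3 * B) := by
      have : j = i + (j - i) := by omega
      have h5 : j * (3 * B) = i * (3 * B) + (j - i) * (3 * B) := by
        rw [← add_mul]; congr 1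
      simp only [hx]
      omega
    have h5 : 1 * (3 * B) ≤ (j - i) * (3 * B) := Nat.mul_le_mul_right _ (by omega)
    omega
  have hinj : ∀ i j, N (x i) = N (x j) → i = j := by
    intro i j h
    rcases lt_trichotomy i j with h1 | h1 | h1
    · have := hsepi i j h1
      omega
    · exact h1
    · have := hsepi j i h1
      omega
  set Ω : Finset ℕ := (range W).image (fun i => N (x i)) with hΩ
  have hΩcard : Ω.card = W := by
    rw [hΩ, card_image_of_injective _ (fun i j h => hinj i j h), card_range]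
  have hΩ1 : ∀ M ∈ Ω, X / 2 ≤ (M : ℝ) ∧ (M : ℝ) + B ≤ X := by
    intro M hM
    obtain ⟨i, hi, rfl⟩ := mem_image.1 hM
    exact ⟨hxlo i, hxhi i (mem_range.1 hi)⟩
  have hΩsep : ∀ u ∈ Ω, ∀ v ∈ Ω, u < v → u + B ≤ v := by
    intro u hu v hv huv
    obtain ⟨i, hi, rfl⟩ := mem_image.1 hu
    obtain ⟨j, hj, rfl⟩ := mem_image.1 hv
    rcases lt_trichotomy i j with h1 | h1 | h1
    · exact hsepi i j h1
    · rw [h1] at huv
      omega
    · have := hsepi j i h1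
      omega
  have hbadc := hXbad B hBpos hB2 Ω (fun M hM => ⟨(hΩ1 M hM).1, by linarith [(hΩ1 M hM).2]⟩) hΩsep
  set Ω' : Finset ℕ := Ω.filter (fun M => Good r f1 η X M) with hΩ'
  have hΩ'card : X / (24 * B) ≤ Ω'.card := by
    have e1 : Ω'.card + (Ω.filter (fun M => ¬ Good r f1 η X M)).card = Ω.card := by
      rw [hΩ', card_filter_add_card_filter_not]
    have e2 : (Ω'.card : ℝ) + ((Ω.filter (fun M => ¬ Good r f1 η X M)).card : ℝ) = W := by
      rw [← hΩcard]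
      exact_mod_cast e1
    have e3 : X / B * X ^ (-η) ≤ X / (24 * B) := by
      have h1 : X ^ (-η) ≤ 1 / 24 := by linarith
      calc X / B * X ^ (-η) ≤ X / B * (1 / 24) := by gcongr
        _ = X / (24 * B) := by field_simp
    have e4 : X / (12 * B) = X / (24 * B) + X / (24 * B) := by field_simp; ring
    linarith
  have hpt : ∀ M ∈ Ω', ∃ m < B, f₀ (M + m) = g ∧
      ∀ q : ℕ, q.Prime → κ * ff X < |(q : ℝ) - ⌊f j₀ ((M + m : ℕ) : ℝ)⌋| ∧
        κ * ff X < |(q : ℝ) - (⌊f j₀ ((M + m : ℕ) : ℝ)⌋ : ℝ) ^ 2| := by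
    intro M hM
    rw [hΩ', mem_filter] at hM
    obtain ⟨h1, h2⟩ := hΩ1 M hM.1
    refine hX B M (by
      refine le_trans ?_ hB1
      linarith) hB2 h1 h2 hM.2 (fun m => f₀ (M + m)) ?_ g
    intro χ hχ θ
    obtain ⟨i, _, rfl⟩ := mem_image.1 hM.1
    refine (hN3 (x i) χ hχ θ).trans ?_
    apply mul_le_mul_of_nonneg_left _ hB0.le
    apply Real.rpow_le_rpow_of_exponent_le (by linarith)
    linarith
  choose! m hm1 hm2 hm3 using hpt
  have hcardle : Ω'.card ≤ ((range (⌊X⌋₊ + 1)).filter (fun n => f₀ n = g ∧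
        ∀ q : ℕ, q.Prime → κ * ff X < |(q : ℝ) - ⌊f j₀ (n : ℝ)⌋| ∧
          κ * ff X < |(q : ℝ) - (⌊f j₀ (n : ℝ)⌋ : ℝ) ^ 2|)).card := by
    apply card_le_card_of_injOn (fun M => M + m M)
    · intro M hM
      have hM' : M ∈ Ω' := hM
      simp only [coe_filter, mem_range, Set.mem_ofPred_eq]
      refine ⟨?_, hm2 M hM', hm3 M hM'⟩
      apply Nat.lt_succ_of_le
      apply Nat.le_floor
      have h1 := hm1 M hM'
      rw [hΩ', mem_filter] at hM'
      have h2 := (hΩ1 M hM'.1).2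
      push_cast
      have h3 : ((m M : ℕ) : ℝ) ≤ B := by exact_mod_cast h1.le
      linarith
    · intro M hM M' hM' hMM
      have h1 : M ∈ Ω' := hM
      have h2 : M' ∈ Ω' := hM'
      simp only at hMM
      have h3 := hm1 M h1
      have h4 := hm1 M' h2
      rw [hΩ', mem_filter] at h1 h2
      rcases lt_trichotomy M M' with h | h | h
      · have := hΩsep M h1.1 M' h2.1 h
        omega
      · exact h
      · have := hΩsep M' h2.1 M h1.1 h
        omega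
  have hfin : X ^ (1 - ε) ≤ X / (24 * B) := by
    rw [le_div_iff₀ (by positivity)]
    calc X ^ (1 - ε) * (24 * B) = (24 * X ^ (1 - ε)) * B := by ring
      _ ≤ X ^ (1 - ε₁) * X ^ ε₁ := by gcongr
      _ = X := by
        rw [← Real.rpow_add hX0]
        have : 1 - ε₁ + ε₁ = 1 := by ring
        rw [this, Real.rpow_one]
  calc X ^ (1 - ε) ≤ X / (24 * B) := hfin
    _ ≤ Ω'.card := hΩ'card
    _ ≤ _ := by exact_mod_cast hcardle

end

end Pool.Agent.U602.SQ
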